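import Pool.Agent.Lib.MP_a3e05c_co.BL.Edge

/-!
# EULER, block BL: closure properties of even log-concave functions, linear form of the edge step
-/

open MeasureTheory Set

namespace MP_a3e05c_co.BL

/-- even log-concave functions -/
structure EL {ι : Type*} (f : (ι → ℝ) → ℝ) : Prop where
  nonneg : ∀ t, 0 ≤ f t
  meas : Measurable f
  even : ∀ t, f (-t) = f t
  conc : ∀ x y, ∀ s : ℝ, 0 < s → s < 1 → f x ^ (1 - s) * f y ^ s ≤ f ((1 - s) • x + s • y)

theorem EL.toLC {ι : Type*} {f : (ι → ℝ) → ℝ} (h : EL f)
    (hB : ∃ B : ℝ, ∀ t, f t ≠ 0 → ∀ i, |t i| ≤ B) (hC : ∃ C : ℝ, ∀ t, f t ≤ C) : LC f :=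
  ⟨h.nonneg, h.meas, h.even, hB, hC, h.conc⟩

theorem LC.toEL {ι : Type*} {f : (ι → ℝ) → ℝ} (h : LC f) : EL f :=
  ⟨h.nonneg, h.meas, h.even, h.conc⟩

theorem EL.one {ι : Type*} : EL (fun _ : ι → ℝ => (1 : ℝ)) :=
  ⟨fun _ => zero_le_one, measurable_const, fun _ => rfl, fun _ _ _ _ _ => by simp⟩

theorem EL.mul {ι : Type*} {f g : (ι → ℝ) → ℝ} (hf : EL f) (hg : EL g) :
    EL fun t => f t * g t := by
  refine ⟨fun t => mul_nonneg (hf.nonneg t) (hg.nonneg t), hf.meas.mul hg.meas,
    fun t => by rw [hf.even, hg.even], fun x y s hs0 hs1 => ?_⟩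
  rw [Real.mul_rpow (hf.nonneg x) (hg.nonneg x), Real.mul_rpow (hf.nonneg y) (hg.nonneg y)]
  calc f x ^ (1 - s) * g x ^ (1 - s) * (f y ^ s * g y ^ s)
      = (f x ^ (1 - s) * f y ^ s) * (g x ^ (1 - s) * g y ^ s) := by ring
    _ ≤ _ := mul_le_mul (hf.conc x y s hs0 hs1) (hg.conc x y s hs0 hs1)
        (mul_nonneg (Real.rpow_nonneg (hg.nonneg x) _) (Real.rpow_nonneg (hg.nonneg y) _))
        (hf.nonneg _)

theorem EL.prod {ι E : Type*} (F : Finset E) {f : E → (ι → ℝ) → ℝ} (h : ∀ e ∈ F, EL (f e)) :
    EL fun t => ∏ e ∈ F, f e t := by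
  classical
  induction F using Finset.induction_on with
  | empty => simpa using EL.one
  | insert e F he ih =>
    have h1 := (h e (Finset.mem_insert_self e F)).mul
      (ih fun e' he' => h e' (Finset.mem_insert_of_mem he'))
    simpa only [Finset.prod_insert he] using h1

/-- indicators of symmetric convex sets -/
theorem EL.indicator {ι : Type*} {S : Set (ι → ℝ)} (hm : MeasurableSet S)
    (hs : ∀ t ∈ S, -t ∈ S) (hc : Convex ℝ S) : EL (S.indicator fun _ => (1 : ℝ)) := by
  have h01 : ∀ t, 0 ≤ S.indicator (fun _ => (1 : ℝ)) t := fun t =>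
    indicator_nonneg (fun _ _ => zero_le_one) t
  refine ⟨h01, measurable_const.indicator hm, fun t => ?_, fun x y s hs0 hs1 => ?_⟩
  · by_cases h : t ∈ S
    · rw [indicator_of_mem h, indicator_of_mem (hs t h)]
    · have h2 : -t ∉ S := fun h3 => h (by simpa using hs _ h3)
      rw [indicator_of_notMem h, indicator_of_notMem h2]
  · by_cases hx : x ∈ S
    · by_cases hy : y ∈ S
      · have hz : (1 - s) • x + s • y ∈ S :=
          hc hx hy (by linarith) hs0.le (by ring)
        rw [indicator_of_mem hx, indicator_of_mem hy, indicator_of_mem hz]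
        simp
      · rw [indicator_of_notMem hy, Real.zero_rpow hs0.ne', mul_zero]
        exact h01 _
    · rw [indicator_of_notMem hx, Real.zero_rpow (by linarith), zero_mul]
      exact h01 _

theorem EL.exp_neg {ι : Type*} {q : (ι → ℝ) → ℝ} (hm : Measurable q) (he : ∀ t, q (-t) = q t)
    (hc : ∀ x y, ∀ s : ℝ, 0 < s → s < 1 → q ((1 - s) • x + s • y) ≤ (1 - s) * q x + s * q y) :
    EL fun t => Real.exp (-q t) := by
  refine ⟨fun t => (Real.exp_pos _).le, hm.neg.exp, fun t => by rw [he], fun x y s hs0 hs1 => ?_⟩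
  rw [← Real.exp_mul, ← Real.exp_mul, ← Real.exp_add, Real.exp_le_exp]
  have := hc x y s hs0 hs1
  linarith

/-- quadratic forms: `Q - l₀² / R ≥ 0` -/
theorem EL.exp_quad {ι E : Type*} [Fintype ι] [Fintype E] (l : E → (ι → ℝ) →ₗ[ℝ] ℝ)
    (l0 : (ι → ℝ) →ₗ[ℝ] ℝ) {R : ℝ} (hR : 0 < R) (h : ∀ t, l0 t ^ 2 ≤ R * ∑ e, l e t ^ 2) :
    EL fun t => Real.exp (-((∑ e, l e t ^ 2) / 2 - l0 t ^ 2 / (2 * R))) := by
  have hml : ∀ k : (ι → ℝ) →ₗ[ℝ] ℝ, Measurable fun t => k t := fun k =>
    k.continuous_of_finiteDimensional.measurable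
  refine EL.exp_neg ?_ (fun t => ?_) (fun x y s hs0 hs1 => ?_)
  · refine Measurable.sub ?_ ?_
    · exact (Finset.measurable_sum _ fun e _ => (hml (l e)).pow_const 2).div_const 2
    · exact ((hml l0).pow_const 2).div_const _
  · simp only [map_neg, neg_sq]
  · have key : ∀ k : (ι → ℝ) →ₗ[ℝ] ℝ, k ((1 - s) • x + s • y) ^ 2 =
        (1 - s) * k x ^ 2 + s * k y ^ 2 - s * (1 - s) * k (x - y) ^ 2 := by
      intro k
      simp only [map_add, map_smul, map_sub, smul_eq_mul]
      ring
    have h1 : ∑ e, l e ((1 - s) • x + s • y) ^ 2 =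
        (1 - s) * ∑ e, l e x ^ 2 + s * ∑ e, l e y ^ 2 - s * (1 - s) * ∑ e, l e (x - y) ^ 2 := by
      rw [Finset.mul_sum, Finset.mul_sum, Finset.mul_sum, ← Finset.sum_add_distrib,
        ← Finset.sum_sub_distrib]
      exact Finset.sum_congr rfl fun e _ => key (l e)
    rw [h1, key l0]
    have h2 := h (x - y)
    have h3 : 0 ≤ s * (1 - s) := mul_nonneg hs0.le (by linarith)
    have h4 : 0 ≤ (∑ e, l e (x - y) ^ 2) / 2 - l0 (x - y) ^ 2 / (2 * R) := by
      rw [sub_nonneg, div_le_div_iff₀ (by positivity) (by norm_num)]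
      nlinarith
    have h5 := mul_nonneg h3 h4
    have h6 : s * (1 - s) * ((∑ e, l e (x - y) ^ 2) / 2 - l0 (x - y) ^ 2 / (2 * R)) =
        (s * (1 - s) * ∑ e, l e (x - y) ^ 2) / 2 - s * (1 - s) * l0 (x - y) ^ 2 / (2 * R) := by
      ring
    rw [h6] at h5
    have h7 : ((1 - s) * ∑ e, l e x ^ 2 + s * ∑ e, l e y ^ 2 -
          s * (1 - s) * ∑ e, l e (x - y) ^ 2) / 2 -
        ((1 - s) * l0 x ^ 2 + s * l0 y ^ 2 - s * (1 - s) * l0 (x - y) ^ 2) / (2 * R) =
        (1 - s) * ((∑ e, l e x ^ 2) / 2 - l0 x ^ 2 / (2 * R)) +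
          s * ((∑ e, l e y ^ 2) / 2 - l0 y ^ 2 / (2 * R)) -
        ((s * (1 - s) * ∑ e, l e (x - y) ^ 2) / 2 -
          s * (1 - s) * l0 (x - y) ^ 2 / (2 * R)) := by
      ring
    rw [h7]
    linarith

/-- the cosine with the Gaussian factor, cut off at `π / 2` -/
noncomputable def cg (u : ℝ) : ℝ :=
  if |u| ≤ Real.pi / 2 then Real.cos u * Real.exp (u ^ 2 / 2) else 0

theorem cg_nonneg (u : ℝ) : 0 ≤ cg u := by
  unfold cg
  split_ifs with h
  · have := abs_le.mp h
    exact mul_nonneg (Real.cos_nonneg_of_neg_pi_div_two_le_of_le this.1 this.2)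
      (Real.exp_pos _).le
  · exact le_rfl

theorem cg_neg (u : ℝ) : cg (-u) = cg u := by
  unfold cg
  rw [abs_neg, Real.cos_neg, neg_sq]

theorem cg_measurable : Measurable cg := by
  unfold cg
  refine Measurable.ite ?_ (by fun_prop) measurable_const
  exact measurableSet_le (by fun_prop) measurable_const

theorem concave_log_cos :
    ConcaveOn ℝ (Ioo (-(Real.pi / 2)) (Real.pi / 2)) fun u => Real.log (Real.cos u) + u ^ 2 / 2 := by
  have hcos : ∀ u ∈ Ioo (-(Real.pi / 2)) (Real.pi / 2), 0 < Real.cos u := fun u hu =>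
    Real.cos_pos_of_mem_Ioo hu
  have hder : ∀ u ∈ Ioo (-(Real.pi / 2)) (Real.pi / 2),
      HasDerivAt (fun u => Real.log (Real.cos u) + u ^ 2 / 2) (-Real.tan u + u) u := by
    intro u hu
    have h1 := (Real.hasDerivAt_cos u).log (hcos u hu).ne'
    have h2 : HasDerivAt (fun u : ℝ => u ^ 2 / 2) u u := by
      have := (hasDerivAt_pow 2 u).div_const 2
      simpa using this
    refine (h1.add h2).congr_deriv ?_
    rw [Real.tan_eq_sin_div_cos]
    ring
  have hder2 : ∀ u ∈ Ioo (-(Real.pi / 2)) (Real.pi / 2),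
      HasDerivAt (fun u => -Real.tan u + u) (-(1 / Real.cos u ^ 2) + 1) u := by
    intro u hu
    exact (Real.hasDerivAt_tan (hcos u hu).ne').neg.add (hasDerivAt_id u)
  refine concaveOn_of_hasDerivWithinAt2_nonpos (convex_Ioo _ _)
    (f' := fun u => -Real.tan u + u) (f'' := fun u => -(1 / Real.cos u ^ 2) + 1) ?_ ?_ ?_ ?_
  · intro u hu
    exact (hder u hu).continuousAt.continuousWithinAt
  · intro u hu
    rw [interior_Ioo] at hu
    exact (hder u hu).hasDerivWithinAt
  · intro u hu
    rw [interior_Ioo] at hu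
    exact (hder2 u hu).hasDerivWithinAt
  · intro u hu
    rw [interior_Ioo] at hu
    have h1 := hcos u hu
    have h2 : Real.cos u ^ 2 ≤ 1 := by
      have := Real.cos_le_one u
      nlinarith
    have h3 : 1 ≤ 1 / Real.cos u ^ 2 := by
      rw [le_div_iff₀ (by positivity)]
      linarith
    linarith

theorem cg_conc (u v s : ℝ) (hs0 : 0 < s) (hs1 : s < 1) :
    cg u ^ (1 - s) * cg v ^ s ≤ cg ((1 - s) * u + s * v) := by
  have hs1' : 0 < 1 - s := by linarith
  by_cases hu : u ∈ Ioo (-(Real.pi / 2)) (Real.pi / 2)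
  swap
  · have h0 : cg u = 0 := by
      unfold cg
      split_ifs with h
      · have h1 := abs_le.mp h
        have h2 : u = -(Real.pi / 2) ∨ u = Real.pi / 2 := by
          by_contra hcon
          push Not at hcon
          exact hu ⟨lt_of_le_of_ne h1.1 hcon.1.symm, lt_of_le_of_ne h1.2 hcon.2⟩
        rcases h2 with h2 | h2
        · rw [h2, Real.cos_neg, Real.cos_pi_div_two, zero_mul]
        · rw [h2, Real.cos_pi_div_two, zero_mul]
      · rfl
    rw [h0, Real.zero_rpow hs1'.ne', zero_mul]
    exact cg_nonneg _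
  by_cases hv : v ∈ Ioo (-(Real.pi / 2)) (Real.pi / 2)
  swap
  · have h0 : cg v = 0 := by
      unfold cg
      split_ifs with h
      · have h1 := abs_le.mp h
        have h2 : v = -(Real.pi / 2) ∨ v = Real.pi / 2 := by
          by_contra hcon
          push Not at hcon
          exact hv ⟨lt_of_le_of_ne h1.1 hcon.1.symm, lt_of_le_of_ne h1.2 hcon.2⟩
        rcases h2 with h2 | h2
        · rw [h2, Real.cos_neg, Real.cos_pi_div_two, zero_mul]
        · rw [h2, Real.cos_pi_div_two, zero_mul]
      · rfl
    rw [h0, Real.zero_rpow hs0.ne', mul_zero]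
    exact cg_nonneg _
  have hz : (1 - s) * u + s * v ∈ Ioo (-(Real.pi / 2)) (Real.pi / 2) := by
    have := (convex_Ioo (-(Real.pi / 2)) (Real.pi / 2)) hu hv hs1'.le hs0.le (by ring)
    simpa only [smul_eq_mul] using this
  have e : ∀ w ∈ Ioo (-(Real.pi / 2)) (Real.pi / 2),
      cg w = Real.exp (Real.log (Real.cos w) + w ^ 2 / 2) := by
    intro w hw
    unfold cg
    rw [if_pos (abs_le.mpr ⟨hw.1.le, hw.2.le⟩), Real.exp_add,
      Real.exp_log (Real.cos_pos_of_mem_Ioo hw)]
  rw [e u hu, e v hv, e _ hz, ← Real.exp_mul, ← Real.exp_mul, ← Real.exp_add, Real.exp_le_exp]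
  have h1 := concave_log_cos.2 hu hv hs1'.le hs0.le (by ring)
  simp only [smul_eq_mul] at h1
  linarith

theorem EL.cg {ι : Type*} [Fintype ι] (l : (ι → ℝ) →ₗ[ℝ] ℝ) : EL fun t => cg (l t) := by
  refine ⟨fun t => cg_nonneg _, cg_measurable.comp l.continuous_of_finiteDimensional.measurable,
    fun t => by rw [map_neg, cg_neg], fun x y s hs0 hs1 => ?_⟩
  have h1 : l ((1 - s) • x + s • y) = (1 - s) * l x + s * l y := by
    simp only [map_add, map_smul, smul_eq_mul]
  rw [h1]
  exact cg_conc _ _ s hs0 hs1

/-- **edge step**, for a linear form -/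
theorem edge_step_lin {ι : Type*} [Fintype ι] (l : (ι → ℝ) →ₗ[ℝ] ℝ) {f : (ι → ℝ) → ℝ} {R : ℝ}
    (hR : 0 < R) (h : LC fun t => f t * Real.exp (l t ^ 2 / (2 * R)))
    (hcut : ∀ t, f t ≠ 0 → |l t| ≤ Real.pi / 2) :
    Real.exp (-R / 2) * ∫ t, f t ≤ ∫ t, f t * Real.cos (l t) := by
  classical
  by_cases hl : l = 0
  · have h1 : ∀ t, f t * Real.exp (l t ^ 2 / (2 * R)) = f t := by
      intro t
      rw [hl]
      simp
    simp only [h1] at h
    have h2 : ∫ t, f t * Real.cos (l t) = ∫ t, f t := by
      rw [hl]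
      simp
    rw [h2]
    have h3 : 0 ≤ ∫ t, f t := integral_nonneg h.nonneg
    have h4 : Real.exp (-R / 2) ≤ 1 := Real.exp_le_one_iff.mpr (by linarith)
    nlinarith
  · obtain ⟨i0, hi0⟩ : ∃ i0, l (Pi.single i0 1) ≠ 0 := by
      by_contra hcon
      push Not at hcon
      apply hl
      refine LinearMap.pi_ext' fun i => ?_
      refine LinearMap.ext_ring ?_
      simpa using hcon i
    set c : ℝ := l (Pi.single i0 1) with hc
    -- the change of variables replacing the coordinate `i0` by `l`
    let A : (ι → ℝ) →ₗ[ℝ] (ι → ℝ) :=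
      { toFun := fun t => Function.update t i0 (l t)
        map_add' := fun x y => by
          funext i
          by_cases hi : i = i0
          · subst hi; simp
          · simp [hi]
        map_smul' := fun r x => by
          funext i
          by_cases hi : i = i0
          · subst hi; simp
          · simp [hi] }
    have hA : ∀ t, A t = Function.update t i0 (l t) := fun t => rfl
    have hupd : ∀ (t : ι → ℝ) (r : ℝ), Function.update t i0 r =
        t + (r - t i0) • (Pi.single i0 (1 : ℝ) : ι → ℝ) := by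
      intro t r
      funext i
      by_cases hi : i = i0
      · subst hi; simp
      · simp [hi]
    have hinj : Function.Injective A := by
      rw [← LinearMap.ker_eq_bot, LinearMap.ker_eq_bot']
      intro t ht
      have h1 : ∀ i, Function.update t i0 (l t) i = 0 := fun i => congrFun ht i
      have h2 : l t = 0 := by simpa using h1 i0
      have h3 : t = t i0 • (Pi.single i0 (1 : ℝ) : ι → ℝ) := by
        funext i
        by_cases hi : i = i0
        · subst hi; simp
        · have := h1 i
          rw [Function.update_of_ne hi] at this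
          simp [this, hi]
      rw [h3, map_smul, smul_eq_mul] at h2
      rcases mul_eq_zero.mp h2 with h4 | h4
      · rw [h3, h4, zero_smul]
      · exact absurd h4 hi0
    have hdet : LinearMap.det A ≠ 0 := by
      have h1 : IsUnit A := (LinearMap.isUnit_iff_ker_eq_bot A).mpr (LinearMap.ker_eq_bot.mpr hinj)
      exact (LinearMap.isUnit_det A h1).ne_zero
    -- the inverse
    let B : (ι → ℝ) →ₗ[ℝ] (ι → ℝ) :=
      { toFun := fun t => Function.update t i0 ((t i0 - l (Function.update t i0 0)) / c)
        map_add' := fun x y => by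
          have e1 : l (Function.update (x + y) i0 0) =
              l (Function.update x i0 0) + l (Function.update y i0 0) := by
            rw [← map_add]
            congr 1
            funext i
            by_cases hi : i = i0
            · subst hi; simp
            · simp [hi]
          funext i
          by_cases hi : i = i0
          · subst hi
            simp only [Function.update_self, Pi.add_apply, e1]
            ring
          · simp [hi]
        map_smul' := fun r x => by
          have e1 : l (Function.update (r • x) i0 0) = r * l (Function.update x i0 0) := by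
            rw [← smul_eq_mul, ← map_smul]
            congr 1
            funext i
            by_cases hi : i = i0
            · subst hi; simp
            · simp [hi]
          funext i
          by_cases hi : i = i0
          · subst hi
            simp only [Function.update_self, Pi.smul_apply, smul_eq_mul, RingHom.id_apply, e1]
            ring
          · simp [hi] }
    have hB : ∀ t, B t = Function.update t i0 ((t i0 - l (Function.update t i0 0)) / c) :=
      fun t => rfl
    have hlB : ∀ t, l (B t) = t i0 := by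
      intro t
      rw [hB]
      have h1 : Function.update t i0 ((t i0 - l (Function.update t i0 0)) / c) =
          Function.update t i0 0 +
            ((t i0 - l (Function.update t i0 0)) / c) • (Pi.single i0 (1 : ℝ) : ι → ℝ) := by
        funext i
        by_cases hi : i = i0
        · subst hi; simp
        · simp [hi]
      rw [h1, map_add, map_smul, smul_eq_mul, ← hc, div_mul_cancel₀ _ hi0]
      ring
    have hAB : ∀ t, A (B t) = t := by
      intro t
      rw [hA, hlB, hB]
      simp
    have hBA : ∀ t, B (A t) = t := fun t => hinj (by rw [hAB])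
    have hAm : Measurable A := A.continuous_of_finiteDimensional.measurable
    have hBc : Continuous B := B.continuous_of_finiteDimensional
    have hmap := Real.map_linearMap_volume_pi_eq_smul_volume_pi hdet
    -- transport of integrals
    have hint : ∀ g : (ι → ℝ) → ℝ, Measurable g →
        ∫ t, g t = |(LinearMap.det A)⁻¹| * ∫ t, g (B t) := by
      intro g hg
      have h1 : ∫ t, g t = ∫ t, g (B (A t)) := by simp only [hBA]
      rw [h1]
      have hgB : Measurable fun t => g (B t) := hg.comp hBc.measurable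
      have h2 := integral_map (μ := (volume : Measure (ι → ℝ))) hAm.aemeasurable
        (f := fun t => g (B t)) hgB.aestronglyMeasurable
      rw [← h2, hmap, integral_smul_measure, ENNReal.toReal_ofReal (abs_nonneg _), smul_eq_mul]
    have hfm : Measurable f := by
      have h1 : f = fun t => (f t * Real.exp (l t ^ 2 / (2 * R))) *
          Real.exp (-(l t ^ 2 / (2 * R))) := by
        funext t
        rw [mul_assoc, ← Real.exp_add, add_neg_cancel, Real.exp_zero, mul_one]
      rw [h1]
      refine h.meas.mul ?_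
      have := l.continuous_of_finiteDimensional.measurable
      fun_prop
    have hlm : Measurable fun t => l t := l.continuous_of_finiteDimensional.measurable
    rw [hint f hfm, hint (fun t => f t * Real.cos (l t)) (hfm.mul (Real.measurable_cos.comp hlm))]
    simp only [hlB]
    rw [mul_left_comm]
    refine mul_le_mul_of_nonneg_left ?_ (abs_nonneg _)
    refine edge_step i0 hR ?_ ?_
    · obtain ⟨S, hS⟩ := h.supp
      obtain ⟨C, hC⟩ := h.bdd
      have e1 : (fun t => f (B t) * Real.exp (t i0 ^ 2 / (2 * R))) =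
          fun t => (fun t => f t * Real.exp (l t ^ 2 / (2 * R))) (B t) := by
        funext t
        show _ = f (B t) * Real.exp (l (B t) ^ 2 / (2 * R))
        rw [hlB]
      rw [e1]
      refine ⟨fun t => h.nonneg _, h.meas.comp hBc.measurable, fun t => ?_, ?_,
        ⟨C, fun t => hC _⟩, fun x y s hs0 hs1 => ?_⟩
      · show (fun t => f t * Real.exp (l t ^ 2 / (2 * R))) (B (-t)) = _
        rw [map_neg]
        exact h.even _
      · -- bounded support
        have hK : IsCompact (A '' (Icc (fun _ : ι => -S) (fun _ => S))) :=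
          isCompact_Icc.image A.continuous_of_finiteDimensional
        obtain ⟨S', hS'⟩ := hK.isBounded.subset_closedBall 0
        refine ⟨S', fun t ht i => ?_⟩
        have h1 := hS _ ht
        have h2 : B t ∈ Icc (fun _ : ι => -S) (fun _ => S) :=
          ⟨fun i => (abs_le.mp (h1 i)).1, fun i => (abs_le.mp (h1 i)).2⟩
        have h3 : t ∈ A '' (Icc (fun _ : ι => -S) (fun _ => S)) := ⟨B t, h2, hAB t⟩
        have h4 := hS' h3
        rw [mem_closedBall_zero_iff] at h4
        exact (norm_le_pi_norm t i).trans h4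
      · show (fun t => f t * Real.exp (l t ^ 2 / (2 * R))) (B x) ^ (1 - s) *
          (fun t => f t * Real.exp (l t ^ 2 / (2 * R))) (B y) ^ s ≤
          (fun t => f t * Real.exp (l t ^ 2 / (2 * R))) (B ((1 - s) • x + s • y))
        rw [map_add, map_smul, map_smul]
        exact h.conc _ _ s hs0 hs1
    · intro t ht
      have := hcut _ ht
      rwa [hlB] at this

end MP_a3e05c_co.BL
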