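import Pool.Agent.Lib.MP_a3e05c_co.BL.Close

/-!
# EULER, block BL: the edge step with a cut-off
-/

open MeasureTheory Set

namespace MP_a3e05c_co.BL

/-- single crossing, any index type -/
theorem cross_ix {ι : Type*} [Fintype ι] (i0 : ι) {f : (ι → ℝ) → ℝ} (h : LC f) {φ : ℝ → ℝ}
    (hφ : Measurable φ) {S u0 D : ℝ}
    (hS : ∀ t, f t ≠ 0 → |t i0| ≤ S) (hu0 : 0 ≤ u0) (h1 : ∀ u, |u| ≤ u0 → |u| ≤ S → 0 ≤ φ u)
    (h2 : ∀ u, u0 < |u| → |u| ≤ S → φ u ≤ 0) (hD : ∀ u, |u| ≤ S → |φ u| ≤ D)
    (h3 : 0 ≤ ∫ u in Icc (-S) S, φ u) : 0 ≤ ∫ t, f t * φ (t i0) := by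
  classical
  obtain ⟨N, hN⟩ : ∃ N, Fintype.card ι = N + 1 :=
    ⟨Fintype.card ι - 1, by have := Fintype.card_pos_iff.mpr ⟨i0⟩; omega⟩
  let e0 : ι ≃ Fin (N + 1) := Fintype.equivFinOfCardEq hN
  let e : ι ≃ Fin (N + 1) := e0.trans (Equiv.swap (e0 i0) 0)
  have he : e i0 = 0 := by simp [e]
  have hp := volume_measurePreserving_piCongrLeft (fun _ : ι => ℝ) e.symm
  have hcoe : ∀ t : Fin (N + 1) → ℝ,
      MeasurableEquiv.piCongrLeft (fun _ : ι => ℝ) e.symm t = fun i => t (e i) := by
    intro t
    funext i
    have h1 := MeasurableEquiv.piCongrLeft_apply_apply (β := fun _ : ι => ℝ) e.symm t (e i)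
    rw [Equiv.symm_apply_apply] at h1
    exact h1
  have h4 : ∀ g : (ι → ℝ) → ℝ, ∫ t, g t = ∫ t : Fin (N + 1) → ℝ, g (fun i => t (e i)) := by
    intro g
    rw [← hp.integral_comp' g]
    simp only [hcoe]
  rw [h4 fun t => f t * φ (t i0)]
  simp only [he]
  refine cross N (h.reindex e.symm) hφ (fun t ht => ?_) hu0 h1 h2 hD h3
  have := hS _ ht
  rwa [Equiv.symm_symm, he] at this

/-- single crossing, for a linear form -/
theorem cross_lin {ι : Type*} [Fintype ι] (l : (ι → ℝ) →ₗ[ℝ] ℝ) {f : (ι → ℝ) → ℝ} (h : LC f)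
    {φ : ℝ → ℝ} (hφ : Measurable φ) {S u0 D : ℝ}
    (hS : ∀ t, f t ≠ 0 → |l t| ≤ S) (hu0 : 0 ≤ u0) (h1 : ∀ u, |u| ≤ u0 → |u| ≤ S → 0 ≤ φ u)
    (h2 : ∀ u, u0 < |u| → |u| ≤ S → φ u ≤ 0) (hD : ∀ u, |u| ≤ S → |φ u| ≤ D)
    (h3 : 0 ≤ ∫ u in Icc (-S) S, φ u) : 0 ≤ ∫ t, f t * φ (l t) := by
  classical
  by_cases hl : l = 0
  · rw [hl]
    simp only [LinearMap.zero_apply]
    rw [integral_mul_const]
    by_cases hS0 : 0 ≤ S
    · exact mul_nonneg (integral_nonneg h.nonneg) (h1 0 (by simpa using hu0) (by simpa using hS0))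
    · have h4 : ∀ t, f t = 0 := by
        intro t
        by_contra h5
        have h6 := hS t h5
        have := abs_nonneg (l t)
        exact hS0 (this.trans h6)
      simp only [h4, integral_zero, zero_mul]
      exact le_rfl
  · obtain ⟨i0, hi0⟩ : ∃ i0, l (Pi.single i0 1) ≠ 0 := by
      by_contra hcon
      push Not at hcon
      apply hl
      refine LinearMap.pi_ext' fun i => ?_
      refine LinearMap.ext_ring ?_
      simpa using hcon i
    set c : ℝ := l (Pi.single i0 1) with hc
    -- the change of variables replacing the coordinate `i0` by `l`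
    let A : (ι → ℝ) →ₗ[ℝ] (ι → ℝ) :=
      { toFun := fun t => Function.update t i0 (l t)
        map_add' := fun x y => by
          funext i
          by_cases hi : i = i0
          · subst hi; simp
          · simp [hi]
        map_smul' := fun r x => by
          funext i
          by_cases hi : i = i0
          · subst hi; simp
          · simp [hi] }
    have hA : ∀ t, A t = Function.update t i0 (l t) := fun t => rfl
    have hupd : ∀ (t : ι → ℝ) (r : ℝ), Function.update t i0 r =
        t + (r - t i0) • (Pi.single i0 (1 : ℝ) : ι → ℝ) := by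
      intro t r
      funext i
      by_cases hi : i = i0
      · subst hi; simp
      · simp [hi]
    have hinj : Function.Injective A := by
      rw [← LinearMap.ker_eq_bot, LinearMap.ker_eq_bot']
      intro t ht
      have h1 : ∀ i, Function.update t i0 (l t) i = 0 := fun i => congrFun ht i
      have h2 : l t = 0 := by simpa using h1 i0
      have h3 : t = t i0 • (Pi.single i0 (1 : ℝ) : ι → ℝ) := by
        funext i
        by_cases hi : i = i0
        · subst hi; simp
        · have := h1 i
          rw [Function.update_of_ne hi] at this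
          simp [this, hi]
      rw [h3, map_smul, smul_eq_mul] at h2
      rcases mul_eq_zero.mp h2 with h4 | h4
      · rw [h3, h4, zero_smul]
      · exact absurd h4 hi0
    have hdet : LinearMap.det A ≠ 0 := by
      have h1 : IsUnit A := (LinearMap.isUnit_iff_ker_eq_bot A).mpr (LinearMap.ker_eq_bot.mpr hinj)
      exact (LinearMap.isUnit_det A h1).ne_zero
    -- the inverse
    let B : (ι → ℝ) →ₗ[ℝ] (ι → ℝ) :=
      { toFun := fun t => Function.update t i0 ((t i0 - l (Function.update t i0 0)) / c)
        map_add' := fun x y => by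
          have e1 : l (Function.update (x + y) i0 0) =
              l (Function.update x i0 0) + l (Function.update y i0 0) := by
            rw [← map_add]
            congr 1
            funext i
            by_cases hi : i = i0
            · subst hi; simp
            · simp [hi]
          funext i
          by_cases hi : i = i0
          · subst hi
            simp only [Function.update_self, Pi.add_apply, e1]
            ring
          · simp [hi]
        map_smul' := fun r x => by
          have e1 : l (Function.update (r • x) i0 0) = r * l (Function.update x i0 0) := by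
            rw [← smul_eq_mul, ← map_smul]
            congr 1
            funext i
            by_cases hi : i = i0
            · subst hi; simp
            · simp [hi]
          funext i
          by_cases hi : i = i0
          · subst hi
            simp only [Function.update_self, Pi.smul_apply, smul_eq_mul, RingHom.id_apply, e1]
            ring
          · simp [hi] }
    have hB : ∀ t, B t = Function.update t i0 ((t i0 - l (Function.update t i0 0)) / c) :=
      fun t => rfl
    have hlB : ∀ t, l (B t) = t i0 := by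
      intro t
      rw [hB]
      have h1 : Function.update t i0 ((t i0 - l (Function.update t i0 0)) / c) =
          Function.update t i0 0 +
            ((t i0 - l (Function.update t i0 0)) / c) • (Pi.single i0 (1 : ℝ) : ι → ℝ) := by
        funext i
        by_cases hi : i = i0
        · subst hi; simp
        · simp [hi]
      rw [h1, map_add, map_smul, smul_eq_mul, ← hc, div_mul_cancel₀ _ hi0]
      ring
    have hAB : ∀ t, A (B t) = t := by
      intro t
      rw [hA, hlB, hB]
      simp
    have hBA : ∀ t, B (A t) = t := fun t => hinj (by rw [hAB])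
    have hAm : Measurable A := A.continuous_of_finiteDimensional.measurable
    have hBc : Continuous B := B.continuous_of_finiteDimensional
    have hmap := Real.map_linearMap_volume_pi_eq_smul_volume_pi hdet
    -- transport of integrals
    have hint : ∀ g : (ι → ℝ) → ℝ, Measurable g →
        ∫ t, g t = |(LinearMap.det A)⁻¹| * ∫ t, g (B t) := by
      intro g hg
      have h1 : ∫ t, g t = ∫ t, g (B (A t)) := by simp only [hBA]
      rw [h1]
      have hgB : Measurable fun t => g (B t) := hg.comp hBc.measurable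
      have h2 := integral_map (μ := (volume : Measure (ι → ℝ))) hAm.aemeasurable
        (f := fun t => g (B t)) hgB.aestronglyMeasurable
      rw [← h2, hmap, integral_smul_measure, ENNReal.toReal_ofReal (abs_nonneg _), smul_eq_mul]
    have hlm : Measurable fun t => l t := l.continuous_of_finiteDimensional.measurable
    rw [hint (fun t => f t * φ (l t)) (h.meas.mul (hφ.comp hlm))]
    simp only [hlB]
    refine mul_nonneg (abs_nonneg _) ?_
    refine cross_ix i0 (f := fun t => f (B t)) ?_ hφ (fun t ht => ?_) hu0 h1 h2 hD h3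
    · obtain ⟨S, hS⟩ := h.supp
      obtain ⟨C, hC⟩ := h.bdd
      refine ⟨fun t => h.nonneg _, h.meas.comp hBc.measurable, fun t => ?_, ?_,
        ⟨C, fun t => hC _⟩, fun x y s hs0 hs1 => ?_⟩
      · show f (B (-t)) = f (B t)
        rw [map_neg]
        exact h.even _
      · -- bounded support
        have hK : IsCompact (A '' (Icc (fun _ : ι => -S) (fun _ => S))) :=
          isCompact_Icc.image A.continuous_of_finiteDimensional
        obtain ⟨S', hS'⟩ := hK.isBounded.subset_closedBall 0
        refine ⟨S', fun t ht i => ?_⟩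
        have h1 := hS _ ht
        have h2 : B t ∈ Icc (fun _ : ι => -S) (fun _ => S) :=
          ⟨fun i => (abs_le.mp (h1 i)).1, fun i => (abs_le.mp (h1 i)).2⟩
        have h3 : t ∈ A '' (Icc (fun _ : ι => -S) (fun _ => S)) := ⟨B t, h2, hAB t⟩
        have h4 := hS' h3
        rw [mem_closedBall_zero_iff] at h4
        exact (norm_le_pi_norm t i).trans h4
      · show f (B x) ^ (1 - s) * f (B y) ^ s ≤ f (B ((1 - s) • x + s • y))
        rw [map_add, map_smul, map_smul]
        exact h.conc _ _ s hs0 hs1
    · have := hS _ ht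
      rwa [hlB] at this

/-- the test function with a cut-off -/
noncomputable def tfc (b : ℝ) (u : ℝ) : ℝ :=
  Real.exp (-b * u ^ 2) * ((if |u| ≤ Real.pi / 2 then Real.cos u else 0) -
    Real.exp (-1 / (4 * b)))

theorem cut_measurable : Measurable fun u : ℝ => if |u| ≤ Real.pi / 2 then Real.cos u else 0 :=
  Measurable.ite (measurableSet_le (by fun_prop) measurable_const) Real.measurable_cos
    measurable_const

theorem tfc_measurable (b : ℝ) : Measurable (tfc b) := by
  unfold tfc
  exact (by fun_prop : Measurable fun u : ℝ => Real.exp (-b * u ^ 2)).mul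
    (cut_measurable.sub measurable_const)

theorem cut_abs (u : ℝ) : |if |u| ≤ Real.pi / 2 then Real.cos u else 0| ≤ 1 := by
  split_ifs
  · exact Real.abs_cos_le_one u
  · simp

theorem gauss_cut_int {b : ℝ} (hb : 0 < b) : Integrable fun u : ℝ =>
    Real.exp (-b * u ^ 2) * (if |u| ≤ Real.pi / 2 then Real.cos u else 0) := by
  refine (gauss_int hb).mul_bdd (c := 1) cut_measurable.aestronglyMeasurable ?_
  exact Filter.Eventually.of_forall fun u => by
    rw [Real.norm_eq_abs]; exact cut_abs u

theorem tfc_int {b : ℝ} (hb : 0 < b) : Integrable (tfc b) := by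
  have : tfc b = fun u => Real.exp (-b * u ^ 2) * (if |u| ≤ Real.pi / 2 then Real.cos u else 0) -
      Real.exp (-b * u ^ 2) * Real.exp (-1 / (4 * b)) := by
    funext u
    unfold tfc
    ring
  rw [this]
  exact (gauss_cut_int hb).sub ((gauss_int hb).mul_const _)

/-- the integral over the line is nonnegative -/
theorem tfc_total {b : ℝ} (hb : 0 < b) : 0 ≤ ∫ u, tfc b u := by
  have h0 : tfc b = fun u => Real.exp (-b * u ^ 2) * (if |u| ≤ Real.pi / 2 then Real.cos u else 0) -
      Real.exp (-b * u ^ 2) * Real.exp (-1 / (4 * b)) := by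
    funext u
    unfold tfc
    ring
  rw [h0, integral_sub (gauss_cut_int hb) ((gauss_int hb).mul_const _), integral_mul_const]
  have h1 : (fun u : ℝ => Real.exp (-b * u ^ 2) * (if |u| ≤ Real.pi / 2 then Real.cos u else 0)) =
      (Icc (-(Real.pi / 2)) (Real.pi / 2)).indicator
        fun u => Real.exp (-b * u ^ 2) * Real.cos u := by
    funext u
    by_cases hu : |u| ≤ Real.pi / 2
    · have hu' : u ∈ Icc (-(Real.pi / 2)) (Real.pi / 2) := abs_le.mp hu
      rw [if_pos hu, indicator_of_mem hu']
    · have hu' : u ∉ Icc (-(Real.pi / 2)) (Real.pi / 2) := fun h => hu (abs_le.mpr h)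
      rw [if_neg hu, indicator_of_notMem hu', mul_zero]
  rw [h1, integral_indicator measurableSet_Icc]
  -- compare with the whole line
  have hi := gauss_cos_int hb
  have e1 : ∫ u in Iic (-(Real.pi / 2)), Real.exp (-b * u ^ 2) * Real.cos u =
      ∫ u in Ioi (Real.pi / 2), Real.exp (-b * u ^ 2) * Real.cos u := by
    rw [← integral_comp_neg_Ioi]
    refine setIntegral_congr_fun measurableSet_Ioi fun u _ => ?_
    simp only [Real.cos_neg, neg_sq]
  have e2 := intervalIntegral.integral_Iic_add_Ioi (b := -(Real.pi / 2)) hi.integrableOn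
    hi.integrableOn
  have hle : -(Real.pi / 2) ≤ Real.pi / 2 := by linarith [Real.pi_pos]
  have e3 : ∫ u in Ioi (-(Real.pi / 2)), Real.exp (-b * u ^ 2) * Real.cos u =
      (∫ u in Ioc (-(Real.pi / 2)) (Real.pi / 2), Real.exp (-b * u ^ 2) * Real.cos u) +
        ∫ u in Ioi (Real.pi / 2), Real.exp (-b * u ^ 2) * Real.cos u := by
    rw [← setIntegral_union Ioc_disjoint_Ioi_same measurableSet_Ioi hi.integrableOn
      hi.integrableOn, Ioc_union_Ioi_eq_Ioi hle]
  rw [integral_Icc_eq_integral_Ioc]
  rw [e1, e3] at e2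
  have e4 := gauss_tail hb
  have e5 := gauss_cos hb
  linarith

theorem tfc_sign {R : ℝ} (hR : 0 < R) (u : ℝ) :
    (|u| ≤ Real.arccos (Real.exp (-R / 2)) → 0 ≤ tfc (1 / (2 * R)) u) ∧
      (Real.arccos (Real.exp (-R / 2)) < |u| → tfc (1 / (2 * R)) u ≤ 0) := by
  have hbR : -1 / (4 * (1 / (2 * R))) = -R / 2 := by
    field_simp
    ring
  have hc0 : 0 < Real.exp (-R / 2) := Real.exp_pos _
  have hc1 : Real.exp (-R / 2) ≤ 1 := Real.exp_le_one_iff.mpr (by linarith)
  constructor
  · intro hu
    unfold tfc
    rw [hbR]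
    refine mul_nonneg (Real.exp_pos _).le ?_
    have h1 : Real.cos (Real.arccos (Real.exp (-R / 2))) ≤ Real.cos |u| :=
      Real.cos_le_cos_of_nonneg_of_le_pi (abs_nonneg u) (Real.arccos_le_pi _) hu
    rw [Real.cos_arccos (by linarith) hc1, Real.cos_abs] at h1
    have h2 : |u| ≤ Real.pi / 2 := hu.trans (Real.arccos_le_pi_div_two.mpr hc0.le)
    rw [if_pos h2]
    linarith
  · intro hu
    unfold tfc
    rw [hbR]
    refine mul_nonpos_of_nonneg_of_nonpos (Real.exp_pos _).le ?_
    split_ifs with h2
    · have h1 : Real.cos |u| ≤ Real.cos (Real.arccos (Real.exp (-R / 2))) :=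
        Real.cos_le_cos_of_nonneg_of_le_pi (Real.arccos_nonneg _)
          (by linarith [Real.pi_pos]) hu.le
      rw [Real.cos_arccos (by linarith) hc1, Real.cos_abs] at h1
      linarith
    · linarith

/-- the integral over every symmetric interval is nonnegative -/
theorem tfc_cut {R : ℝ} (hR : 0 < R) (S : ℝ) : 0 ≤ ∫ u in Icc (-S) S, tfc (1 / (2 * R)) u := by
  have hb : 0 < 1 / (2 * R) := by positivity
  by_cases hS : S ≤ Real.arccos (Real.exp (-R / 2))
  · refine setIntegral_nonneg measurableSet_Icc fun u hu => ?_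
    exact (tfc_sign hR u).1 ((abs_le.mpr hu).trans hS)
  · push Not at hS
    have h1 := integral_add_compl (μ := volume) (s := Icc (-S) S) measurableSet_Icc (tfc_int hb)
    have h2 : ∫ u in (Icc (-S) S)ᶜ, tfc (1 / (2 * R)) u ≤ 0 := by
      refine setIntegral_nonpos measurableSet_Icc.compl fun u hu => ?_
      refine (tfc_sign hR u).2 ?_
      by_contra h3
      push Not at h3
      exact hu (abs_le.mp (h3.trans hS.le))
    have h3 := tfc_total hb
    linarith

/-- **edge step with a cut-off**, for a linear form: no condition on the support -/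
theorem edge_step_cut {ι : Type*} [Fintype ι] (l : (ι → ℝ) →ₗ[ℝ] ℝ) {f : (ι → ℝ) → ℝ} {R : ℝ}
    (hR : 0 < R) (h : LC fun t => f t * Real.exp (l t ^ 2 / (2 * R))) :
    Real.exp (-R / 2) * ∫ t, f t ≤
      ∫ t, f t * (if |l t| ≤ Real.pi / 2 then Real.cos (l t) else 0) := by
  have hb : 0 < 1 / (2 * R) := by positivity
  have hbR : -1 / (4 * (1 / (2 * R))) = -R / 2 := by
    field_simp
    ring
  have hlm : Measurable fun t => l t := l.continuous_of_finiteDimensional.measurable
  have hS : ∃ S : ℝ, ∀ t, f t * Real.exp (l t ^ 2 / (2 * R)) ≠ 0 → |l t| ≤ S := by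
    obtain ⟨B, hB⟩ := h.supp
    have hK : IsCompact ((fun t => l t) '' (Icc (fun _ : ι => -B) (fun _ => B))) :=
      isCompact_Icc.image l.continuous_of_finiteDimensional
    obtain ⟨S', hS'⟩ := hK.isBounded.subset_closedBall 0
    refine ⟨S', fun t ht => ?_⟩
    have h1 := hB _ ht
    have h4 := hS' ⟨t, ⟨fun i => (abs_le.mp (h1 i)).1, fun i => (abs_le.mp (h1 i)).2⟩, rfl⟩
    rwa [mem_closedBall_zero_iff, Real.norm_eq_abs] at h4
  obtain ⟨S, hS⟩ := hS
  have htb : ∀ u, |tfc (1 / (2 * R)) u| ≤ 2 := by
    intro u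
    unfold tfc
    rw [abs_mul, abs_of_pos (Real.exp_pos _), hbR]
    have h1 : Real.exp (-(1 / (2 * R)) * u ^ 2) ≤ 1 :=
      Real.exp_le_one_iff.mpr (by nlinarith [sq_nonneg u, mul_nonneg hb.le (sq_nonneg u)])
    have h2 : |(if |u| ≤ Real.pi / 2 then Real.cos u else 0) - Real.exp (-R / 2)| ≤ 2 := by
      have h3 := cut_abs u
      have h4 : |Real.exp (-R / 2)| ≤ 1 := by
        rw [abs_of_pos (Real.exp_pos _)]
        exact Real.exp_le_one_iff.mpr (by linarith)
      calc |(if |u| ≤ Real.pi / 2 then Real.cos u else 0) - Real.exp (-R / 2)|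
          ≤ |if |u| ≤ Real.pi / 2 then Real.cos u else 0| + |Real.exp (-R / 2)| := abs_sub _ _
        _ ≤ 1 + 1 := add_le_add h3 h4
        _ = 2 := by norm_num
    calc Real.exp (-(1 / (2 * R)) * u ^ 2) *
          |(if |u| ≤ Real.pi / 2 then Real.cos u else 0) - Real.exp (-R / 2)| ≤ 1 * 2 :=
          mul_le_mul h1 h2 (abs_nonneg _) zero_le_one
      _ = 2 := by norm_num
  have hmain := cross_lin l h (tfc_measurable (1 / (2 * R))) (S := S)
    (u0 := Real.arccos (Real.exp (-R / 2))) (D := 2) hS (Real.arccos_nonneg _)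
    (fun u hu _ => (tfc_sign hR u).1 hu) (fun u hu _ => (tfc_sign hR u).2 hu)
    (fun u _ => htb u) (tfc_cut hR S)
  have h1 : ∀ t : ι → ℝ, f t * Real.exp (l t ^ 2 / (2 * R)) * tfc (1 / (2 * R)) (l t) =
      f t * (if |l t| ≤ Real.pi / 2 then Real.cos (l t) else 0) - Real.exp (-R / 2) * f t := by
    intro t
    unfold tfc
    rw [hbR]
    have h2 : Real.exp (l t ^ 2 / (2 * R)) * Real.exp (-(1 / (2 * R)) * l t ^ 2) = 1 := by
      rw [← Real.exp_add]
      have : l t ^ 2 / (2 * R) + -(1 / (2 * R)) * l t ^ 2 = 0 := by ring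
      rw [this, Real.exp_zero]
    calc f t * Real.exp (l t ^ 2 / (2 * R)) * (Real.exp (-(1 / (2 * R)) * l t ^ 2) *
          ((if |l t| ≤ Real.pi / 2 then Real.cos (l t) else 0) - Real.exp (-R / 2)))
        = f t * (Real.exp (l t ^ 2 / (2 * R)) * Real.exp (-(1 / (2 * R)) * l t ^ 2)) *
          ((if |l t| ≤ Real.pi / 2 then Real.cos (l t) else 0) - Real.exp (-R / 2)) := by ring
      _ = _ := by rw [h2]; ring
  simp only [h1] at hmain
  have hfi : Integrable f := by
    have h3 := h.integrable_mul (g := fun t => Real.exp (-(1 / (2 * R)) * l t ^ 2))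
      (by fun_prop) (D := 1)
      (fun t _ => by
        rw [abs_of_pos (Real.exp_pos _)]
        exact Real.exp_le_one_iff.mpr
          (by nlinarith [sq_nonneg (l t), mul_nonneg hb.le (sq_nonneg (l t))]))
    refine h3.congr (Filter.Eventually.of_forall fun t => ?_)
    show f t * Real.exp (l t ^ 2 / (2 * R)) * Real.exp (-(1 / (2 * R)) * l t ^ 2) = f t
    rw [mul_assoc, ← Real.exp_add]
    have : l t ^ 2 / (2 * R) + -(1 / (2 * R)) * l t ^ 2 = 0 := by ring
    rw [this, Real.exp_zero, mul_one]
  have hfc : Integrable fun t => f t * (if |l t| ≤ Real.pi / 2 then Real.cos (l t) else 0) := by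
    refine hfi.mul_bdd (c := 1) (cut_measurable.comp hlm).aestronglyMeasurable ?_
    exact Filter.Eventually.of_forall fun t => by
      rw [Real.norm_eq_abs]; exact cut_abs (l t)
  rw [integral_sub hfc (hfi.const_mul _), integral_const_mul] at hmain
  linarith

end MP_a3e05c_co.BL
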