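import Mathlib

/-!
# EULER, block BL: the Gaussian integral of the cosine, cut off at `π / 2`
-/

open MeasureTheory Set Filter Topology

namespace MP_a3e05c_co.BL

theorem gauss_int {b : ℝ} (hb : 0 < b) : Integrable fun u : ℝ => Real.exp (-b * u ^ 2) :=
  integrable_exp_neg_mul_sq hb

theorem gauss_cos_int {b : ℝ} (hb : 0 < b) :
    Integrable fun u : ℝ => Real.exp (-b * u ^ 2) * Real.cos u := by
  refine (gauss_int hb).mul_bdd (c := 1) (Real.measurable_cos.aestronglyMeasurable) ?_
  exact Eventually.of_forall fun u => by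
    rw [Real.norm_eq_abs]; exact Real.abs_cos_le_one u

theorem gauss_cos {b : ℝ} (hb : 0 < b) :
    ∫ u : ℝ, Real.exp (-b * u ^ 2) * Real.cos u =
      Real.exp (-1 / (4 * b)) * ∫ u : ℝ, Real.exp (-b * u ^ 2) := by
  have h := fourierIntegral_gaussian (b := (b : ℂ)) (by simpa using hb) 1
  have hf : ∀ x : ℝ, Complex.exp (Complex.I * 1 * x) * Complex.exp (-(b : ℂ) * (x : ℂ) ^ 2) =
      ((Real.exp (-b * x ^ 2) * Real.cos x : ℝ) : ℂ) +
        ((Real.exp (-b * x ^ 2) * Real.sin x : ℝ) : ℂ) * Complex.I := by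
    intro x
    have h1 : Complex.exp (-(b : ℂ) * (x : ℂ) ^ 2) = ((Real.exp (-b * x ^ 2) : ℝ) : ℂ) := by
      push_cast
      rfl
    rw [h1, mul_one, mul_comm Complex.I, Complex.exp_mul_I]
    push_cast
    ring
  have hsin : Integrable fun u : ℝ => Real.exp (-b * u ^ 2) * Real.sin u := by
    refine (gauss_int hb).mul_bdd (c := 1) (Real.measurable_sin.aestronglyMeasurable) ?_
    exact Eventually.of_forall fun u => by
      rw [Real.norm_eq_abs]; exact Real.abs_sin_le_one u
  have hL : ∫ x : ℝ, Complex.exp (Complex.I * 1 * x) * Complex.exp (-(b : ℂ) * (x : ℂ) ^ 2) =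
      ((∫ u : ℝ, Real.exp (-b * u ^ 2) * Real.cos u : ℝ) : ℂ) +
        ((∫ u : ℝ, Real.exp (-b * u ^ 2) * Real.sin u : ℝ) : ℂ) * Complex.I := by
    rw [← integral_complex_ofReal, ← integral_complex_ofReal, ← integral_mul_const,
      ← integral_add (gauss_cos_int hb).ofReal (hsin.ofReal.mul_const _)]
    exact integral_congr_ae (Eventually.of_forall hf)
  rw [hL] at h
  have hre := congrArg Complex.re h
  have hpb : (0 : ℝ) ≤ Real.pi / b := div_nonneg Real.pi_pos.le hb.le
  have hR : ((Real.pi : ℂ) / (b : ℂ)) ^ (1 / 2 : ℂ) * Complex.exp (-1 ^ 2 / (4 * (b : ℂ))) =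
      ((Real.sqrt (Real.pi / b) * Real.exp (-1 / (4 * b)) : ℝ) : ℂ) := by
    rw [Real.sqrt_eq_rpow]
    push_cast
    rw [Complex.ofReal_cpow hpb]
    push_cast
    ring_nf
  rw [hR, Complex.ofReal_re] at hre
  simp only [Complex.add_re, Complex.ofReal_re, Complex.mul_re, Complex.I_re, Complex.ofReal_im,
    Complex.I_im, mul_zero, mul_one, sub_self, add_zero] at hre
  rw [hre, integral_gaussian, mul_comm]

theorem gauss_tail {b : ℝ} (hb : 0 < b) :
    ∫ u in Ioi (Real.pi / 2), Real.exp (-b * u ^ 2) * Real.cos u ≤ 0 := by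
  have h1 : Integrable fun u : ℝ => u * Real.exp (-b * u ^ 2) := integrable_mul_exp_neg_mul_sq hb
  have h2 : Integrable fun u : ℝ => (u * Real.exp (-b * u ^ 2)) * (2 * b * (1 - Real.sin u)) := by
    refine h1.mul_bdd (c := 2 * b * 2) (by fun_prop) ?_
    refine Eventually.of_forall fun u => ?_
    rw [Real.norm_eq_abs, abs_of_nonneg]
    · have := Real.neg_one_le_sin u
      have hb2 : 0 ≤ 2 * b := by linarith
      exact mul_le_mul_of_nonneg_left (by linarith) hb2
    · have := Real.sin_le_one u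
      apply mul_nonneg <;> linarith
  have hder : ∀ u ∈ Ici (Real.pi / 2), HasDerivAt (fun u => (Real.sin u - 1) * Real.exp (-b * u ^ 2))
      (Real.exp (-b * u ^ 2) * Real.cos u +
        (u * Real.exp (-b * u ^ 2)) * (2 * b * (1 - Real.sin u))) u := by
    intro u _
    have e1 : HasDerivAt (fun u : ℝ => Real.sin u - 1) (Real.cos u) u :=
      (Real.hasDerivAt_sin u).sub_const 1
    have e2 : HasDerivAt (fun u : ℝ => -b * u ^ 2) (-b * (2 * u)) u := by
      have := (hasDerivAt_pow 2 u).const_mul (-b)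
      simpa using this
    have e3 := e1.mul e2.exp
    refine e3.congr_deriv ?_
    ring
  have hlim : Tendsto (fun u => (Real.sin u - 1) * Real.exp (-b * u ^ 2)) atTop (𝓝 0) := by
    have h3 : Tendsto (fun u : ℝ => Real.exp (-b * u ^ 2)) atTop (𝓝 0) := by
      refine Real.tendsto_exp_atBot.comp ?_
      have h4 : Tendsto (fun u : ℝ => b * u ^ 2) atTop atTop :=
        (tendsto_pow_atTop two_ne_zero).const_mul_atTop hb
      have h5 := tendsto_neg_atTop_atBot.comp h4
      refine h5.congr fun u => ?_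
      show -(b * u ^ 2) = -b * u ^ 2
      ring
    refine squeeze_zero_norm (a := fun u => 2 * Real.exp (-b * u ^ 2)) (fun u => ?_) ?_
    · rw [Real.norm_eq_abs, abs_mul, abs_of_pos (Real.exp_pos _)]
      refine mul_le_mul_of_nonneg_right ?_ (Real.exp_pos _).le
      rw [abs_le]
      have := Real.neg_one_le_sin u
      have := Real.sin_le_one u
      constructor <;> linarith
    · simpa using h3.const_mul 2
  have hint := integral_Ioi_of_hasDerivAt_of_tendsto' hder
    ((gauss_cos_int hb).add h2).integrableOn hlim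
  rw [Real.sin_pi_div_two, sub_self, zero_mul, sub_zero] at hint
  rw [← hint]
  refine setIntegral_mono_on (gauss_cos_int hb).integrableOn
    ((gauss_cos_int hb).add h2).integrableOn measurableSet_Ioi fun u hu => ?_
  have hu0 : 0 < u := lt_trans (by positivity) hu
  have := Real.sin_le_one u
  have h6 : 0 ≤ (u * Real.exp (-b * u ^ 2)) * (2 * b * (1 - Real.sin u)) := by
    apply mul_nonneg
    · positivity
    · apply mul_nonneg <;> linarith
  linarith

/-- the test function -/
noncomputable def tf (b : ℝ) (u : ℝ) : ℝ :=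
  Real.exp (-b * u ^ 2) * (Real.cos u - Real.exp (-1 / (4 * b)))

theorem tf_int {b : ℝ} (hb : 0 < b) : Integrable (tf b) := by
  have : tf b = fun u => Real.exp (-b * u ^ 2) * Real.cos u -
      Real.exp (-b * u ^ 2) * Real.exp (-1 / (4 * b)) := by
    funext u
    unfold tf
    ring
  rw [this]
  exact (gauss_cos_int hb).sub ((gauss_int hb).mul_const _)

theorem tf_total {b : ℝ} (hb : 0 < b) : ∫ u, tf b u = 0 := by
  have : tf b = fun u => Real.exp (-b * u ^ 2) * Real.cos u -
      Real.exp (-b * u ^ 2) * Real.exp (-1 / (4 * b)) := by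
    funext u
    unfold tf
    ring
  rw [this, integral_sub (gauss_cos_int hb) ((gauss_int hb).mul_const _), gauss_cos hb,
    integral_mul_const]
  ring

theorem tf_tail {b : ℝ} (hb : 0 < b) : ∫ u in Ioi (Real.pi / 2), tf b u ≤ 0 := by
  have : tf b = fun u => Real.exp (-b * u ^ 2) * Real.cos u -
      Real.exp (-b * u ^ 2) * Real.exp (-1 / (4 * b)) := by
    funext u
    unfold tf
    ring
  rw [this, integral_sub (gauss_cos_int hb).integrableOn ((gauss_int hb).mul_const _).integrableOn]
  have h1 := gauss_tail hb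
  have h2 : 0 ≤ ∫ u in Ioi (Real.pi / 2), Real.exp (-b * u ^ 2) * Real.exp (-1 / (4 * b)) :=
    integral_nonneg fun u => by positivity
  linarith

theorem tf_even (b u : ℝ) : tf b (-u) = tf b u := by
  unfold tf
  rw [Real.cos_neg, neg_sq]

/-- the cut-off integral is nonnegative -/
theorem tf_cut {b : ℝ} (hb : 0 < b) :
    0 ≤ ∫ u in Icc (-(Real.pi / 2)) (Real.pi / 2), tf b u := by
  have hi := tf_int hb
  have h1 : ∫ u in Iic (-(Real.pi / 2)), tf b u = ∫ u in Ioi (Real.pi / 2), tf b u := by
    rw [← integral_comp_neg_Ioi]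
    simp only [tf_even]
  have h2 := intervalIntegral.integral_Iic_add_Ioi (b := -(Real.pi / 2)) hi.integrableOn
    hi.integrableOn
  have hle : -(Real.pi / 2) ≤ Real.pi / 2 := by linarith [Real.pi_pos]
  have h3 : ∫ u in Ioi (-(Real.pi / 2)), tf b u =
      (∫ u in Ioc (-(Real.pi / 2)) (Real.pi / 2), tf b u) + ∫ u in Ioi (Real.pi / 2), tf b u := by
    rw [← setIntegral_union Ioc_disjoint_Ioi_same measurableSet_Ioi hi.integrableOn
      hi.integrableOn, Ioc_union_Ioi_eq_Ioi hle]
  rw [integral_Icc_eq_integral_Ioc]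
  rw [tf_total hb, h1, h3] at h2
  have h4 := tf_tail hb
  linarith

end MP_a3e05c_co.BL
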