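import Pool.Agent.Lib.MP_a3e05c_co.BL.LC
import Pool.Agent.Lib.MP_a3e05c_co.BL.Gauss

/-!
# EULER, block BL: the marginal lemma and the edge step
-/

open MeasureTheory Set

namespace MP_a3e05c_co.BL

/-- even log-concave functions decrease along rays -/
theorem LC.ray {ι : Type*} {f : (ι → ℝ) → ℝ} (h : LC f) (t : ι → ℝ) {l : ℝ} (hl : |l| ≤ 1) :
    f t ≤ f (l • t) := by
  rcases abs_le.mp hl with ⟨h1, h2⟩
  rcases eq_or_lt_of_le h1 with h1 | h1
  · rw [← h1, neg_one_smul, h.even]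
  rcases eq_or_lt_of_le h2 with h2 | h2
  · rw [h2, one_smul]
  have hs0 : 0 < (1 - l) / 2 := by linarith
  have hs1 : (1 - l) / 2 < 1 := by linarith
  have h3 := h.conc t (-t) ((1 - l) / 2) hs0 hs1
  rw [h.even] at h3
  have h4 : (1 - (1 - l) / 2) • t + ((1 - l) / 2) • (-t) = l • t := by
    rw [smul_neg, ← sub_eq_add_neg, ← sub_smul]
    congr 1
    ring
  rw [h4] at h3
  have h5 : f t ^ (1 - (1 - l) / 2) * f t ^ ((1 - l) / 2) = f t := by
    rcases eq_or_lt_of_le (h.nonneg t) with h0 | h0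
    · rw [← h0, Real.zero_rpow hs0.ne', mul_zero]
    · rw [← Real.rpow_add h0]
      simp
  rwa [h5] at h3

theorem LC.one_dim {f : (Fin 1 → ℝ) → ℝ} (h : LC f) {t t' : Fin 1 → ℝ} (ht : |t' 0| ≤ |t 0|) :
    f t ≤ f t' := by
  by_cases h0 : t 0 = 0
  · have h1 : t' 0 = 0 := by
      rw [h0, abs_zero] at ht
      exact abs_eq_zero.mp (le_antisymm ht (abs_nonneg _))
    have h2 : t = t' := by
      funext i
      rw [Subsingleton.elim i 0, h0, h1]
    rw [h2]
  · have h1 : t' = (t' 0 / t 0) • t := by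
      funext i
      rw [Subsingleton.elim i 0, Pi.smul_apply, smul_eq_mul, div_mul_cancel₀ _ h0]
    rw [h1]
    refine h.ray t ?_
    rw [abs_div]
    exact div_le_one_of_le₀ ht (abs_nonneg _)

/-- single crossing, dimension one -/
theorem cross_one {f : (Fin 1 → ℝ) → ℝ} (h : LC f) {φ : ℝ → ℝ} (hφ : Measurable φ) {S u0 D : ℝ}
    (hS : ∀ t, f t ≠ 0 → |t 0| ≤ S) (hu0 : 0 ≤ u0) (h1 : ∀ u, |u| ≤ u0 → |u| ≤ S → 0 ≤ φ u)
    (h2 : ∀ u, u0 < |u| → |u| ≤ S → φ u ≤ 0) (hD : ∀ u, |u| ≤ S → |φ u| ≤ D)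
    (h3 : 0 ≤ ∫ u in Icc (-S) S, φ u) : 0 ≤ ∫ t, f t * φ (t 0) := by
  set k : ℝ := f (fun _ => u0) with hk
  have hk0 : 0 ≤ k := h.nonneg _
  have e := volume_preserving_funUnique (Fin 1) ℝ
  have e1 : ∫ t : Fin 1 → ℝ, (Icc (-S) S).indicator (fun u => k * φ u) (t 0) =
      ∫ u, (Icc (-S) S).indicator (fun u => k * φ u) u :=
    e.integral_comp' (fun u => (Icc (-S) S).indicator (fun u => k * φ u) u)
  have hind : Integrable (fun u => (Icc (-S) S).indicator (fun u => k * φ u) u) := by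
    refine integrable_bdd ((hφ.const_mul k).indicator measurableSet_Icc) (S := Icc (-S) S)
      (by simp) (fun t ht => ?_) (C := k * |D|) (fun t => ?_)
    · by_contra hcon
      exact ht (indicator_of_notMem hcon _)
    · by_cases hm : t ∈ Icc (-S) S
      · rw [indicator_of_mem hm, abs_mul, abs_of_nonneg hk0]
        exact mul_le_mul_of_nonneg_left ((hD t (abs_le.mpr hm)).trans (le_abs_self D)) hk0
      · rw [indicator_of_notMem hm, abs_zero]
        exact mul_nonneg hk0 (abs_nonneg _)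
  have e2 : 0 ≤ ∫ t : Fin 1 → ℝ, (Icc (-S) S).indicator (fun u => k * φ u) (t 0) := by
    rw [e1, integral_indicator measurableSet_Icc, integral_const_mul]
    exact mul_nonneg hk0 h3
  refine e2.trans ?_
  have hi1 : Integrable fun t : Fin 1 → ℝ => (Icc (-S) S).indicator (fun u => k * φ u) (t 0) :=
    (e.integrable_comp_emb (MeasurableEquiv.measurableEmbedding _)).mpr hind
  refine integral_mono hi1 (h.integrable_mul (hφ.comp (measurable_pi_apply 0))
    (fun t ht => hD _ (hS t ht))) fun t => ?_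
  show (Icc (-S) S).indicator (fun u => k * φ u) (t 0) ≤ f t * φ (t 0)
  by_cases hm : t 0 ∈ Icc (-S) S
  · rw [indicator_of_mem hm]
    have hm' : |t 0| ≤ S := abs_le.mpr hm
    by_cases h4 : |t 0| ≤ u0
    · refine mul_le_mul_of_nonneg_right ?_ (h1 _ h4 hm')
      refine h.one_dim ?_
      rwa [abs_of_nonneg hu0]
    · push Not at h4
      refine mul_le_mul_of_nonpos_right ?_ (h2 _ h4 hm')
      refine h.one_dim ?_
      rw [abs_of_nonneg hu0]
      exact h4.le
  · rw [indicator_of_notMem hm]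
    have h5 : f t = 0 := by
      by_contra h6
      exact hm (abs_le.mp (hS t h6))
    rw [h5, zero_mul]

/-- single crossing, all dimensions -/
theorem cross (N : ℕ) : ∀ {f : (Fin (N + 1) → ℝ) → ℝ} (_ : LC f) {φ : ℝ → ℝ}
    (_ : Measurable φ) {S u0 D : ℝ}
    (_ : ∀ t, f t ≠ 0 → |t 0| ≤ S) (_ : 0 ≤ u0) (_ : ∀ u, |u| ≤ u0 → |u| ≤ S → 0 ≤ φ u)
    (_ : ∀ u, u0 < |u| → |u| ≤ S → φ u ≤ 0) (_ : ∀ u, |u| ≤ S → |φ u| ≤ D)
    (_ : 0 ≤ ∫ u in Icc (-S) S, φ u), 0 ≤ ∫ t, f t * φ (t 0) := by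
  induction N with
  | zero =>
    intro f h φ hφ S u0 D hS hu0 h1 h2 hD h3
    exact cross_one h hφ hS hu0 h1 h2 hD h3
  | succ N ih =>
    intro f h φ hφ S u0 D hS hu0 h1 h2 hD h3
    rw [integral_marg h hφ (fun t ht => hD _ (hS t ht))]
    refine ih h.marg hφ (fun y hy => ?_) hu0 h1 h2 hD h3
    by_contra hcon
    apply hy
    unfold BL.marg
    have h4 : ∀ x, f (ins x y) = 0 := by
      intro x
      by_contra h5
      apply hcon
      have h6 := hS _ h5
      have h7 : ins x y (0 : Fin (N + 2)) = y 0 := ins_castSucc x y 0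
      rwa [h7] at h6
    simp only [h4, integral_zero]

/-- **edge step**, coordinate form -/
theorem edge_step_fin {N : ℕ} {f : (Fin (N + 1) → ℝ) → ℝ} {R : ℝ} (hR : 0 < R)
    (h : LC fun t => f t * Real.exp (t 0 ^ 2 / (2 * R)))
    (hcut : ∀ t, f t ≠ 0 → |t 0| ≤ Real.pi / 2) :
    Real.exp (-R / 2) * ∫ t, f t ≤ ∫ t, f t * Real.cos (t 0) := by
  have hb : 0 < 1 / (2 * R) := by positivity
  set b : ℝ := 1 / (2 * R) with hbdef
  have hbR : -1 / (4 * b) = -R / 2 := by
    rw [hbdef]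
    field_simp
    ring
  have hc0 : 0 < Real.exp (-R / 2) := Real.exp_pos _
  have hc1 : Real.exp (-R / 2) ≤ 1 := Real.exp_le_one_iff.mpr (by linarith)
  have hpi := Real.pi_pos
  have htfm : Measurable (tf b) := by
    unfold tf
    fun_prop
  have hmain := cross N h (φ := tf b) htfm (S := Real.pi / 2)
    (u0 := Real.arccos (Real.exp (-R / 2))) (D := 2) ?_ (Real.arccos_nonneg _) ?_ ?_ ?_ (tf_cut hb)
  · have h1 : ∀ t : Fin (N + 1) → ℝ, f t * Real.exp (t 0 ^ 2 / (2 * R)) * tf b (t 0) =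
        f t * Real.cos (t 0) - Real.exp (-R / 2) * f t := by
      intro t
      unfold tf
      rw [hbR]
      have h2 : Real.exp (t 0 ^ 2 / (2 * R)) * Real.exp (-b * t 0 ^ 2) = 1 := by
        rw [← Real.exp_add, hbdef]
        have : t 0 ^ 2 / (2 * R) + -(1 / (2 * R)) * t 0 ^ 2 = 0 := by ring
        rw [this, Real.exp_zero]
      calc f t * Real.exp (t 0 ^ 2 / (2 * R)) *
            (Real.exp (-b * t 0 ^ 2) * (Real.cos (t 0) - Real.exp (-R / 2)))
          = f t * (Real.exp (t 0 ^ 2 / (2 * R)) * Real.exp (-b * t 0 ^ 2)) *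
            (Real.cos (t 0) - Real.exp (-R / 2)) := by ring
        _ = _ := by rw [h2]; ring
    simp only [h1] at hmain
    have hfi : Integrable f := by
      have h3 := h.integrable_mul (g := fun t => Real.exp (-b * t 0 ^ 2)) (by fun_prop) (D := 1)
        (fun t _ => by
          rw [abs_of_pos (Real.exp_pos _)]
          exact Real.exp_le_one_iff.mpr (by nlinarith [sq_nonneg (t 0)]))
      refine h3.congr (Filter.Eventually.of_forall fun t => ?_)
      show f t * Real.exp (t 0 ^ 2 / (2 * R)) * Real.exp (-b * t 0 ^ 2) = f t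
      rw [mul_assoc, ← Real.exp_add, hbdef]
      have : t 0 ^ 2 / (2 * R) + -(1 / (2 * R)) * t 0 ^ 2 = 0 := by ring
      rw [this, Real.exp_zero, mul_one]
    have hfc : Integrable fun t => f t * Real.cos (t 0) := by
      refine hfi.mul_bdd (c := 1) ((Real.measurable_cos.comp
        (measurable_pi_apply 0)).aestronglyMeasurable) ?_
      exact Filter.Eventually.of_forall fun u => by
        rw [Real.norm_eq_abs]; exact Real.abs_cos_le_one _
    rw [integral_sub hfc (hfi.const_mul _), integral_const_mul] at hmain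
    linarith
  · intro t ht
    exact hcut t (left_ne_zero_of_mul ht)
  · intro u hu _
    unfold tf
    rw [hbR]
    refine mul_nonneg (Real.exp_pos _).le ?_
    have h1 : Real.cos (Real.arccos (Real.exp (-R / 2))) ≤ Real.cos |u| :=
      Real.cos_le_cos_of_nonneg_of_le_pi (abs_nonneg u) (Real.arccos_le_pi _) hu
    rw [Real.cos_arccos (by linarith) hc1, Real.cos_abs] at h1
    linarith
  · intro u hu hu2
    unfold tf
    rw [hbR]
    refine mul_nonpos_of_nonneg_of_nonpos (Real.exp_pos _).le ?_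
    have h1 : Real.cos |u| ≤ Real.cos (Real.arccos (Real.exp (-R / 2))) :=
      Real.cos_le_cos_of_nonneg_of_le_pi (Real.arccos_nonneg _) (by linarith) hu.le
    rw [Real.cos_arccos (by linarith) hc1, Real.cos_abs] at h1
    linarith
  · intro u _
    unfold tf
    rw [hbR, abs_mul, abs_of_pos (Real.exp_pos _)]
    have h1 : Real.exp (-b * u ^ 2) ≤ 1 := Real.exp_le_one_iff.mpr (by nlinarith [sq_nonneg u])
    have h2 : |Real.cos u - Real.exp (-R / 2)| ≤ 2 := by
      have := Real.cos_le_one u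
      have := Real.neg_one_le_cos u
      rw [abs_le]
      constructor <;> linarith
    calc Real.exp (-b * u ^ 2) * |Real.cos u - Real.exp (-R / 2)| ≤ 1 * 2 :=
          mul_le_mul h1 h2 (abs_nonneg _) zero_le_one
      _ = 2 := by norm_num

/-- transport to another index type -/
theorem LC.reindex {ι κ : Type*} [Fintype ι] [Fintype κ] (e : ι ≃ κ) {f : (κ → ℝ) → ℝ}
    (h : LC f) : LC fun t : ι → ℝ => f (fun j => t (e.symm j)) := by
  obtain ⟨B, hB⟩ := h.supp
  obtain ⟨C, hC⟩ := h.bdd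
  refine ⟨fun t => h.nonneg _, h.meas.comp (by fun_prop), fun t => ?_, ⟨B, fun t ht i => ?_⟩,
    ⟨C, fun t => hC _⟩, fun x y s hs0 hs1 => ?_⟩
  · exact h.even fun j => t (e.symm j)
  · have := hB _ ht (e i)
    simpa using this
  · exact h.conc (fun j => x (e.symm j)) (fun j => y (e.symm j)) s hs0 hs1

/-- **edge step**: adding the factor `cos (t i0)`. -/
theorem edge_step {ι : Type*} [Fintype ι] (i0 : ι) {f : (ι → ℝ) → ℝ} {R : ℝ} (hR : 0 < R)
    (h : LC fun t => f t * Real.exp (t i0 ^ 2 / (2 * R)))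
    (hcut : ∀ t, f t ≠ 0 → |t i0| ≤ Real.pi / 2) :
    Real.exp (-R / 2) * ∫ t, f t ≤ ∫ t, f t * Real.cos (t i0) := by
  classical
  obtain ⟨N, hN⟩ : ∃ N, Fintype.card ι = N + 1 :=
    ⟨Fintype.card ι - 1, by have := Fintype.card_pos_iff.mpr ⟨i0⟩; omega⟩
  let e0 : ι ≃ Fin (N + 1) := Fintype.equivFinOfCardEq hN
  let e : ι ≃ Fin (N + 1) := e0.trans (Equiv.swap (e0 i0) 0)
  have he : e i0 = 0 := by simp [e]
  have he' : e.symm 0 = i0 := by rw [← he, Equiv.symm_apply_apply]
  have hp := volume_measurePreserving_piCongrLeft (fun _ : ι => ℝ) e.symm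
  have hcoe : ∀ t : Fin (N + 1) → ℝ,
      MeasurableEquiv.piCongrLeft (fun _ : ι => ℝ) e.symm t = fun i => t (e i) := by
    intro t
    funext i
    have h1 := MeasurableEquiv.piCongrLeft_apply_apply (β := fun _ : ι => ℝ) e.symm t (e i)
    rw [Equiv.symm_apply_apply] at h1
    exact h1
  have h1 : ∀ g : (ι → ℝ) → ℝ, ∫ t, g t = ∫ t : Fin (N + 1) → ℝ, g (fun i => t (e i)) := by
    intro g
    rw [← hp.integral_comp' g]
    simp only [hcoe]
  rw [h1 f, h1 fun t => f t * Real.cos (t i0)]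
  simp only [he]
  refine edge_step_fin hR ?_ ?_
  · have h2 := h.reindex e.symm
    have h3 : (fun t : Fin (N + 1) → ℝ => f (fun j => t (e.symm.symm j)) *
        Real.exp (t (e.symm.symm i0) ^ 2 / (2 * R))) =
        fun t => f (fun i => t (e i)) * Real.exp (t 0 ^ 2 / (2 * R)) := by
      funext t
      rw [Equiv.symm_symm, he]
    rw [← h3]
    exact h2
  · intro t ht
    have := hcut _ ht
    rwa [he] at this

end MP_a3e05c_co.BL
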