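import Pool.Agent.Lib.MP_a3e05c_co.BL.Close

/-!
# EULER, block BL: the edge step for graphs, on the arc domain with a base vertex
-/

open MeasureTheory Set

namespace MP_a3e05c_co.BL

variable {V : Type*} [Fintype V] [DecidableEq V]

/-- extension of the coordinates by `0` at the base vertex `b` -/
def ext (b : V) (t : {v : V // v ≠ b} → ℝ) (v : V) : ℝ := if h : v = b then 0 else t ⟨v, h⟩

/-- difference of two angles, as a linear form -/
def dif (b u v : V) : ({v : V // v ≠ b} → ℝ) →ₗ[ℝ] ℝ where
  toFun t := ext b t u - ext b t v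
  map_add' x y := by
    unfold ext
    split_ifs <;> (try simp only [Pi.add_apply]) <;> ring
  map_smul' r x := by
    unfold ext
    split_ifs <;> (try simp only [Pi.smul_apply, smul_eq_mul, RingHom.id_apply]) <;> ring

omit [Fintype V] in
theorem dif_apply (b u v : V) (t : {v : V // v ≠ b} → ℝ) :
    dif b u v t = ext b t u - ext b t v := rfl

/-- the arc domain: all differences of angles are at most `π / 2` -/
def arc (b : V) : Set ({v : V // v ≠ b} → ℝ) :=
  {t | ∀ u v : V, |ext b t u - ext b t v| ≤ Real.pi / 2}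

theorem arc_measurable (b : V) : MeasurableSet (arc b) := by
  have : arc b = ⋂ u : V, ⋂ v : V, {t | |dif b u v t| ≤ Real.pi / 2} := by
    ext t
    simp only [arc, mem_ofPred_eq, mem_iInter, dif_apply]
  rw [this]
  refine MeasurableSet.iInter fun u => MeasurableSet.iInter fun v => ?_
  have := (dif b u v).continuous_of_finiteDimensional.measurable
  exact measurableSet_le (by fun_prop) measurable_const

theorem arc_neg (b : V) (t : {v : V // v ≠ b} → ℝ) (ht : t ∈ arc b) : -t ∈ arc b := by
  intro u v
  rw [← dif_apply, map_neg, abs_neg, dif_apply]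
  exact ht u v

theorem arc_convex (b : V) : Convex ℝ (arc b) := by
  intro x hx y hy r s hr hs hrs u v
  have h1 : ext b (r • x + s • y) u - ext b (r • x + s • y) v =
      r * (ext b x u - ext b x v) + s * (ext b y u - ext b y v) := by
    rw [← dif_apply, map_add, map_smul, map_smul, dif_apply, dif_apply, smul_eq_mul, smul_eq_mul]
  rw [h1]
  calc |r * (ext b x u - ext b x v) + s * (ext b y u - ext b y v)|
      ≤ |r * (ext b x u - ext b x v)| + |s * (ext b y u - ext b y v)| := abs_add_le _ _
    _ = r * |ext b x u - ext b x v| + s * |ext b y u - ext b y v| := by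
        rw [abs_mul, abs_mul, abs_of_nonneg hr, abs_of_nonneg hs]
    _ ≤ r * (Real.pi / 2) + s * (Real.pi / 2) :=
        add_le_add (mul_le_mul_of_nonneg_left (hx u v) hr) (mul_le_mul_of_nonneg_left (hy u v) hs)
    _ = Real.pi / 2 := by rw [← add_mul, hrs, one_mul]

omit [Fintype V] in
theorem arc_bdd (b : V) (t : {v : V // v ≠ b} → ℝ) (ht : t ∈ arc b) (i : {v : V // v ≠ b}) :
    |t i| ≤ Real.pi / 2 := by
  have h := ht i.1 b
  unfold ext at h
  rw [dif_neg i.2, dif_pos rfl, sub_zero] at h
  exact h

/-- product of cosines over the edges in `F` -/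
noncomputable def cw {E : Type*} (b : V) (p : E → V × V) (F : Finset E)
    (t : {v : V // v ≠ b} → ℝ) : ℝ :=
  ∏ e ∈ F, Real.cos (ext b t (p e).1 - ext b t (p e).2)

/-- the integral over the arc domain -/
noncomputable def Z {E : Type*} (b : V) (p : E → V × V) (F : Finset E) : ℝ :=
  ∫ t in arc b, cw b p F t

theorem cw_measurable {E : Type*} (b : V) (p : E → V × V) (F : Finset E) :
    Measurable (cw b p F) := by
  unfold cw
  refine Finset.measurable_prod _ fun e _ => ?_
  exact Real.measurable_cos.comp
    (dif b (p e).1 (p e).2).continuous_of_finiteDimensional.measurable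

omit [Fintype V] in
theorem cw_nonneg {E : Type*} (b : V) (p : E → V × V) (F : Finset E)
    {t : {v : V // v ≠ b} → ℝ} (ht : t ∈ arc b) : 0 ≤ cw b p F t := by
  refine Finset.prod_nonneg fun e _ => ?_
  have h := abs_le.mp (ht (p e).1 (p e).2)
  exact Real.cos_nonneg_of_neg_pi_div_two_le_of_le h.1 h.2

omit [Fintype V] in
theorem cw_abs_le {E : Type*} (b : V) (p : E → V × V) (F : Finset E)
    (t : {v : V // v ≠ b} → ℝ) : |cw b p F t| ≤ 1 := by
  unfold cw
  rw [Finset.abs_prod]
  exact Finset.prod_le_one (fun e _ => abs_nonneg _) fun e _ => Real.abs_cos_le_one _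

theorem Z_nonneg {E : Type*} (b : V) (p : E → V × V) (F : Finset E) : 0 ≤ Z b p F :=
  setIntegral_nonneg (arc_measurable b) fun _ ht => cw_nonneg b p F ht

theorem arc_LC {E : Type*} (b : V) (p : E → V × V) (F : Finset E) (a c : V) {R : ℝ} (hR : 0 < R)
    (h : ∀ t, dif b a c t ^ 2 ≤ R * ∑ e ∈ F, dif b (p e).1 (p e).2 t ^ 2) :
    LC fun t => (arc b).indicator (cw b p F) t * Real.exp (dif b a c t ^ 2 / (2 * R)) := by
  have h1 : EL ((arc b).indicator fun _ => (1 : ℝ)) :=
    EL.indicator (arc_measurable b) (arc_neg b) (arc_convex b)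
  have h2 : EL fun t => ∏ e ∈ F, cg (dif b (p e).1 (p e).2 t) :=
    EL.prod F fun e _ => EL.cg _
  have h3 := EL.exp_quad (E := {e // e ∈ F}) (fun e => dif b (p e.1).1 (p e.1).2) (dif b a c) hR
    (fun t => by
      rw [Finset.sum_coe_sort F fun e => dif b (p e).1 (p e).2 t ^ 2]
      exact h t)
  have h4 := (h1.mul h2).mul h3
  have e1 : (fun t => (arc b).indicator (cw b p F) t * Real.exp (dif b a c t ^ 2 / (2 * R))) =
      fun t => (arc b).indicator (fun _ => (1 : ℝ)) t *
        (∏ e ∈ F, cg (dif b (p e).1 (p e).2 t)) *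
        Real.exp (-((∑ e : {e // e ∈ F}, dif b (p e.1).1 (p e.1).2 t ^ 2) / 2 -
          dif b a c t ^ 2 / (2 * R))) := by
    funext t
    by_cases ht : t ∈ arc b
    · rw [indicator_of_mem ht, indicator_of_mem ht, one_mul,
        Finset.sum_coe_sort F fun e => dif b (p e).1 (p e).2 t ^ 2]
      have e2 : ∏ e ∈ F, cg (dif b (p e).1 (p e).2 t) =
          cw b p F t * Real.exp ((∑ e ∈ F, dif b (p e).1 (p e).2 t ^ 2) / 2) := by
        rw [Finset.sum_div, Real.exp_sum]
        unfold cw
        rw [← Finset.prod_mul_distrib]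
        refine Finset.prod_congr rfl fun e _ => ?_
        have e3 : |dif b (p e).1 (p e).2 t| ≤ Real.pi / 2 := ht (p e).1 (p e).2
        unfold cg
        rw [if_pos e3]
        rfl
      rw [e2, mul_assoc, ← Real.exp_add]
      congr 2
      ring
    · rw [indicator_of_notMem ht, indicator_of_notMem ht]
      ring
  rw [e1]
  refine h4.toLC ⟨Real.pi / 2, fun t ht i => ?_⟩
    ⟨Real.exp ((Real.pi / 2) ^ 2 / (2 * R)), fun t => ?_⟩
  · have ht' : t ∈ arc b := by
      by_contra hcon
      apply ht
      rw [indicator_of_notMem hcon]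
      ring
    exact arc_bdd b t ht' i
  · refine le_of_eq_of_le (congrFun e1 t).symm ?_
    show (arc b).indicator (cw b p F) t * Real.exp (dif b a c t ^ 2 / (2 * R)) ≤ _
    by_cases ht : t ∈ arc b
    · rw [indicator_of_mem ht]
      have h5 : cw b p F t ≤ 1 := (le_abs_self _).trans (cw_abs_le b p F t)
      have h6 : dif b a c t ^ 2 ≤ (Real.pi / 2) ^ 2 := by
        rw [← sq_abs (dif b a c t)]
        exact pow_le_pow_left₀ (abs_nonneg _) (ht a c) 2
      have h7 : Real.exp (dif b a c t ^ 2 / (2 * R)) ≤
          Real.exp ((Real.pi / 2) ^ 2 / (2 * R)) := by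
        rw [Real.exp_le_exp]
        exact div_le_div_of_nonneg_right h6 (by positivity)
      calc cw b p F t * Real.exp (dif b a c t ^ 2 / (2 * R))
          ≤ 1 * Real.exp (dif b a c t ^ 2 / (2 * R)) :=
            mul_le_mul_of_nonneg_right h5 (Real.exp_pos _).le
        _ ≤ _ := by rw [one_mul]; exact h7
    · rw [indicator_of_notMem ht, zero_mul]
      exact (Real.exp_pos _).le

/-- **one step**: adding the edge `a c` -/
theorem arc_step {E : Type*} (b : V) (p : E → V × V) (F : Finset E) (a c : V) {R : ℝ} (hR : 0 < R)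
    (h : ∀ t, dif b a c t ^ 2 ≤ R * ∑ e ∈ F, dif b (p e).1 (p e).2 t ^ 2) :
    Real.exp (-R / 2) * Z b p F ≤ ∫ t in arc b, cw b p F t * Real.cos (dif b a c t) := by
  have hm := edge_step_lin (dif b a c) hR (arc_LC b p F a c hR h) (fun t ht => by
    have ht' : t ∈ arc b := by
      by_contra hcon
      exact ht (indicator_of_notMem hcon _)
    exact ht' a c)
  have e1 : ∫ t, (arc b).indicator (cw b p F) t = Z b p F := by
    rw [integral_indicator (arc_measurable b)]
    rfl
  have e2 : ∫ t, (arc b).indicator (cw b p F) t * Real.cos (dif b a c t) =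
      ∫ t in arc b, cw b p F t * Real.cos (dif b a c t) := by
    rw [← integral_indicator (arc_measurable b)]
    refine integral_congr_ae (Filter.Eventually.of_forall fun t => ?_)
    show (arc b).indicator (cw b p F) t * Real.cos (dif b a c t) =
      (arc b).indicator (fun t => cw b p F t * Real.cos (dif b a c t)) t
    by_cases ht : t ∈ arc b
    · rw [indicator_of_mem ht, indicator_of_mem ht]
    · rw [indicator_of_notMem ht, indicator_of_notMem ht, zero_mul]
  rw [e1, e2] at hm
  exact hm

/-- the same for a new edge `e` of the family -/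
theorem Z_step {E : Type*} [DecidableEq E] (b : V) (p : E → V × V) (F : Finset E) {e : E}
    (he : e ∉ F) {R : ℝ} (hR : 0 < R)
    (h : ∀ t, dif b (p e).1 (p e).2 t ^ 2 ≤ R * ∑ e' ∈ F, dif b (p e').1 (p e').2 t ^ 2) :
    Real.exp (-R / 2) * Z b p F ≤ Z b p (insert e F) := by
  refine (arc_step b p F (p e).1 (p e).2 hR h).trans (le_of_eq ?_)
  unfold Z
  refine integral_congr_ae (Filter.Eventually.of_forall fun t => ?_)
  show cw b p F t * Real.cos (dif b (p e).1 (p e).2 t) = cw b p (insert e F) t
  unfold cw
  rw [Finset.prod_insert he, mul_comm]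
  rfl

/-- adding a list of edges -/
theorem Z_steps {E : Type*} [DecidableEq E] (b : V) (p : E → V × V) (F G : Finset E)
    (hd : Disjoint F G) (R : E → ℝ) (hR : ∀ e ∈ G, 0 < R e)
    (h : ∀ e ∈ G, ∀ t, dif b (p e).1 (p e).2 t ^ 2 ≤
      R e * ∑ e' ∈ F, dif b (p e').1 (p e').2 t ^ 2) :
    Real.exp (-(∑ e ∈ G, R e) / 2) * Z b p F ≤ Z b p (F ∪ G) := by
  induction G using Finset.induction_on with
  | empty => simp
  | insert e G he ih =>
    have hd' : Disjoint F G := hd.mono_right (Finset.subset_insert e G)
    have heF : e ∉ F := fun h1 => Finset.disjoint_left.mp hd h1 (Finset.mem_insert_self e G)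
    have ih' := ih hd' (fun e' he' => hR e' (Finset.mem_insert_of_mem he'))
      (fun e' he' => h e' (Finset.mem_insert_of_mem he'))
    have heU : e ∉ F ∪ G := by
      rw [Finset.mem_union]
      rintro (h1 | h1)
      · exact heF h1
      · exact he h1
    have hRe := hR e (Finset.mem_insert_self e G)
    have hs := Z_step b p (F ∪ G) heU hRe (fun t => by
      refine (h e (Finset.mem_insert_self e G) t).trans ?_
      refine mul_le_mul_of_nonneg_left ?_ hRe.le
      exact Finset.sum_le_sum_of_subset_of_nonneg Finset.subset_union_left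
        fun _ _ _ => sq_nonneg _)
    have e1 : F ∪ insert e G = insert e (F ∪ G) := by
      rw [Finset.union_insert]
    rw [e1]
    refine le_trans ?_ hs
    have e2 : Real.exp (-(∑ e' ∈ insert e G, R e') / 2) =
        Real.exp (-R e / 2) * Real.exp (-(∑ e' ∈ G, R e') / 2) := by
      rw [← Real.exp_add, Finset.sum_insert he]
      congr 1
      ring
    rw [e2, mul_assoc]
    exact mul_le_mul_of_nonneg_left ih' (Real.exp_pos _).le

end MP_a3e05c_co.BL
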