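import Pool.Agent.Lib.MP_a3e05c_co.BL.Prek1

/-!
# EULER, block BL: even log-concave functions, integrating out a coordinate
-/

open MeasureTheory Set

namespace MP_a3e05c_co.BL

/-- even log-concave functions with bounded support and bounded values -/
structure LC {ι : Type*} (f : (ι → ℝ) → ℝ) : Prop where
  nonneg : ∀ t, 0 ≤ f t
  meas : Measurable f
  even : ∀ t, f (-t) = f t
  supp : ∃ B : ℝ, ∀ t, f t ≠ 0 → ∀ i, |t i| ≤ B
  bdd : ∃ C : ℝ, ∀ t, f t ≤ C
  conc : ∀ x y, ∀ s : ℝ, 0 < s → s < 1 → f x ^ (1 - s) * f y ^ s ≤ f ((1 - s) • x + s • y)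

theorem integrable_bdd {α : Type*} [MeasureSpace α] {f : α → ℝ} (hm : Measurable f) {S : Set α}
    (hS : volume S ≠ ⊤) (hfS : ∀ t, f t ≠ 0 → t ∈ S) {C : ℝ}
    (hC : ∀ t, |f t| ≤ C) : Integrable f := by
  have h1 : IntegrableOn f S := Measure.integrableOn_of_bounded (M := C) hS
    hm.aestronglyMeasurable (Filter.Eventually.of_forall fun t => by
      rw [Real.norm_eq_abs]; exact hC t)
  exact (integrableOn_iff_integrable_of_support_subset (fun t ht => hfS t ht)).mp h1

theorem vol_box_ne_top (ι : Type*) [Fintype ι] (B : ℝ) :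
    volume (Icc (fun _ : ι => -B) (fun _ : ι => B)) ≠ ⊤ := by
  exact isCompact_Icc.measure_ne_top

theorem LC.integrable {ι : Type*} [Fintype ι] {f : (ι → ℝ) → ℝ} (h : LC f) : Integrable f := by
  obtain ⟨B, hB⟩ := h.supp
  obtain ⟨C, hC⟩ := h.bdd
  refine integrable_bdd h.meas (vol_box_ne_top ι B) (fun t ht => ?_) (C := C) (fun t => ?_)
  · exact ⟨fun i => (abs_le.mp (hB t ht i)).1, fun i => (abs_le.mp (hB t ht i)).2⟩
  · rw [abs_of_nonneg (h.nonneg t)]; exact hC t

/-- a bounded measurable multiple is integrable -/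
theorem LC.integrable_mul {ι : Type*} [Fintype ι] {f : (ι → ℝ) → ℝ} (h : LC f)
    {g : (ι → ℝ) → ℝ} (hg : Measurable g) {D : ℝ} (hD : ∀ t, f t ≠ 0 → |g t| ≤ D) :
    Integrable fun t => f t * g t := by
  obtain ⟨B, hB⟩ := h.supp
  obtain ⟨C, hC⟩ := h.bdd
  have hC0 : 0 ≤ C := (h.nonneg 0).trans (hC 0)
  refine integrable_bdd (h.meas.mul hg) (vol_box_ne_top ι B) (fun t ht => ?_) (C := C * |D|)
    (fun t => ?_)
  · have ht' : f t ≠ 0 := left_ne_zero_of_mul ht
    exact ⟨fun i => (abs_le.mp (hB t ht' i)).1, fun i => (abs_le.mp (hB t ht' i)).2⟩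
  · rw [abs_mul]
    by_cases h0 : f t = 0
    · rw [h0, abs_zero, zero_mul]
      exact mul_nonneg hC0 (abs_nonneg _)
    · have h1 : |f t| ≤ C := by rw [abs_of_nonneg (h.nonneg t)]; exact hC t
      exact mul_le_mul h1 ((hD t h0).trans (le_abs_self D)) (abs_nonneg _) hC0

/-- the level sets of a section are convex -/
theorem level_convex {F : ℝ → ℝ} (_h0 : ∀ x, 0 ≤ F x)
    (h : ∀ x y s : ℝ, 0 < s → s < 1 → F x ^ (1 - s) * F y ^ s ≤ F ((1 - s) * x + s * y))
    {t : ℝ} (ht : 0 < t) : Convex ℝ {x | t < F x} := by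
  rw [convex_iff_forall_pos]
  intro x hx y hy a b ha hb hab
  have hb1 : b < 1 := by linarith
  have ha' : a = 1 - b := by linarith
  have hx' : t < F x := hx
  have hy' : t < F y := hy
  have h2 : t ^ (1 - b) * t ^ b = t := by
    rw [← Real.rpow_add ht]
    simp
  have h3 : t ^ (1 - b) < F x ^ (1 - b) := Real.rpow_lt_rpow ht.le hx' (by linarith)
  have h4 : t ^ b < F y ^ b := Real.rpow_lt_rpow ht.le hy' hb
  have h5 : t ^ (1 - b) * t ^ b < F x ^ (1 - b) * F y ^ b :=
    mul_lt_mul'' h3 h4 (Real.rpow_nonneg ht.le _) (Real.rpow_nonneg ht.le _)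
  rw [h2] at h5
  show t < F (a • x + b • y)
  rw [ha']
  exact lt_of_lt_of_le h5 (h x y b hb hb1)

/-- the vector with last coordinate `x` -/
def ins {N : ℕ} (x : ℝ) (y : Fin N → ℝ) : Fin (N + 1) → ℝ :=
  Fin.insertNth (α := fun _ => ℝ) (Fin.last N) x y

theorem ins_last {N : ℕ} (x : ℝ) (y : Fin N → ℝ) : ins x y (Fin.last N) = x := by
  unfold ins
  rw [Fin.insertNth_apply_same]

theorem ins_castSucc {N : ℕ} (x : ℝ) (y : Fin N → ℝ) (j : Fin N) :
    ins x y j.castSucc = y j := by
  unfold ins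
  rw [← Fin.succAbove_last_apply, Fin.insertNth_apply_succAbove]

theorem ins_ext {N : ℕ} {v w : Fin (N + 1) → ℝ} (h1 : v (Fin.last N) = w (Fin.last N))
    (h2 : ∀ j : Fin N, v j.castSucc = w j.castSucc) : v = w := by
  funext i
  refine Fin.lastCases h1 h2 i

theorem ins_neg {N : ℕ} (x : ℝ) (y : Fin N → ℝ) : ins (-x) (-y) = -ins x y := by
  refine ins_ext ?_ fun j => ?_
  · rw [Pi.neg_apply, ins_last, ins_last]
  · rw [Pi.neg_apply, ins_castSucc, ins_castSucc, Pi.neg_apply]

theorem ins_comb {N : ℕ} (s x x' : ℝ) (y y' : Fin N → ℝ) :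
    ins ((1 - s) * x + s * x') ((1 - s) • y + s • y') = (1 - s) • ins x y + s • ins x' y' := by
  refine ins_ext ?_ fun j => ?_
  · simp only [Pi.add_apply, Pi.smul_apply, smul_eq_mul, ins_last]
  · simp only [Pi.add_apply, Pi.smul_apply, smul_eq_mul, ins_castSucc]

theorem ins_symm {N : ℕ} (p : ℝ × (Fin N → ℝ)) :
    (MeasurableEquiv.piFinSuccAbove (fun _ : Fin (N + 1) => ℝ) (Fin.last N)).symm p =
      ins p.1 p.2 := rfl

theorem measurable_ins {N : ℕ} : Measurable fun p : ℝ × (Fin N → ℝ) => ins p.1 p.2 :=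
  (MeasurableEquiv.piFinSuccAbove (fun _ : Fin (N + 1) => ℝ) (Fin.last N)).symm.measurable

/-- integrating out the last coordinate -/
noncomputable def marg {N : ℕ} (f : (Fin (N + 1) → ℝ) → ℝ) (y : Fin N → ℝ) : ℝ :=
  ∫ x : ℝ, f (ins x y)

theorem section_integrable {N : ℕ} {f : (Fin (N + 1) → ℝ) → ℝ} (h : LC f) (y : Fin N → ℝ) :
    Integrable fun x : ℝ => f (ins x y) := by
  obtain ⟨B, hB⟩ := h.supp
  obtain ⟨C, hC⟩ := h.bdd
  refine integrable_bdd (h.meas.comp (measurable_ins.comp measurable_prodMk_right))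
    (S := Icc (-B) B) (by simp) (fun x hx => ?_) (C := C) (fun x => ?_)
  · have := hB _ hx (Fin.last N)
    rw [ins_last] at this
    exact abs_le.mp this
  · rw [abs_of_nonneg (h.nonneg _)]; exact hC _

theorem LC.marg {N : ℕ} {f : (Fin (N + 1) → ℝ) → ℝ} (h : LC f) : LC (marg f) := by
  obtain ⟨B, hB⟩ := h.supp
  obtain ⟨C, hC⟩ := h.bdd
  have hC0 : 0 ≤ C := (h.nonneg 0).trans (hC 0)
  have hlc : ∀ (y y' : Fin N → ℝ) (x x' s : ℝ), 0 < s → s < 1 →
      f (ins x y) ^ (1 - s) * f (ins x' y') ^ s ≤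
        f (ins ((1 - s) * x + s * x') ((1 - s) • y + s • y')) := by
    intro y y' x x' s hs0 hs1
    rw [ins_comb]
    exact h.conc _ _ s hs0 hs1
  refine ⟨fun y => integral_nonneg fun x => h.nonneg _, ?_, ?_, ?_, ?_, ?_⟩
  · have h1 : StronglyMeasurable (Function.uncurry fun (y : Fin N → ℝ) (x : ℝ) => f (ins x y)) :=
      (h.meas.comp (measurable_ins.comp measurable_swap)).stronglyMeasurable
    exact h1.integral_prod_right.measurable
  · intro y
    unfold BL.marg
    rw [← integral_neg_eq_self]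
    refine integral_congr_ae (Filter.Eventually.of_forall fun x => ?_)
    show f (ins (-x) (-y)) = f (ins x y)
    rw [ins_neg, h.even]
  · refine ⟨B, fun y hy i => ?_⟩
    by_contra hcon
    apply hy
    unfold BL.marg
    have h1 : ∀ x, f (ins x y) = 0 := by
      intro x
      by_contra h2
      apply hcon
      have := hB _ h2 i.castSucc
      rwa [ins_castSucc] at this
    simp only [h1, integral_zero]
  · refine ⟨C * (2 * |B|), fun y => ?_⟩
    unfold BL.marg
    have h1 : ∫ x : ℝ, f (ins x y) = ∫ x in Icc (-|B|) |B|, f (ins x y) := by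
      rw [setIntegral_eq_integral_of_forall_compl_eq_zero]
      intro x hx
      by_contra h2
      apply hx
      have := hB _ h2 (Fin.last N)
      rw [ins_last] at this
      exact abs_le.mp (this.trans (le_abs_self B))
    rw [h1]
    calc ∫ x in Icc (-|B|) |B|, f (ins x y) ≤ ∫ _x in Icc (-|B|) |B|, C := by
          refine setIntegral_mono_on (section_integrable h y).integrableOn ?_ measurableSet_Icc
            fun x _ => hC _
          exact integrableOn_const (by simp) (by simp)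
      _ = C * (2 * |B|) := by
          rw [setIntegral_const, measureReal_def, Real.volume_Icc, ENNReal.toReal_ofReal, smul_eq_mul]
          · ring
          · have := abs_nonneg B
            linarith
  · intro y y' s hs0 hs1
    unfold BL.marg
    refine prek (h := fun z => f (ins z ((1 - s) • y + s • y')))
      (fun x => h.nonneg _) (fun x => h.nonneg _) (fun x => h.nonneg _)
      ⟨C, by rintro _ ⟨x, rfl⟩; exact hC _⟩ ⟨C, by rintro _ ⟨x, rfl⟩; exact hC _⟩
      (section_integrable h y) (section_integrable h y') (section_integrable h _)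
      (fun t ht => level_convex (fun x => h.nonneg _) (fun x x' r hr0 hr1 => ?_) ht)
      (fun t ht => level_convex (fun x => h.nonneg _) (fun x x' r hr0 hr1 => ?_) ht)
      ?_ ?_ hs0 hs1 (fun x x' => hlc y y' x x' s hs0 hs1)
    · have h1 := hlc y y x x' r hr0 hr1
      have h2 : (1 - r) • y + r • y = y := by
        rw [← add_smul]; simp
      rwa [h2] at h1
    · have h1 := hlc y' y' x x' r hr0 hr1
      have h2 : (1 - r) • y' + r • y' = y' := by
        rw [← add_smul]; simp
      rwa [h2] at h1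
    · refine (Metric.isBounded_Icc (-B) B).subset fun x hx => ?_
      have := hB _ (ne_of_gt hx) (Fin.last N)
      rw [ins_last] at this
      exact abs_le.mp this
    · refine (Metric.isBounded_Icc (-B) B).subset fun x hx => ?_
      have := hB _ (ne_of_gt hx) (Fin.last N)
      rw [ins_last] at this
      exact abs_le.mp this

/-- Fubini -/
theorem integral_marg {N : ℕ} {f : (Fin (N + 2) → ℝ) → ℝ} (h : LC f) {φ : ℝ → ℝ}
    (hφ : Measurable φ) {D : ℝ} (hD : ∀ t, f t ≠ 0 → |φ (t 0)| ≤ D) :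
    ∫ t, f t * φ (t 0) = ∫ y, marg f y * φ (y 0) := by
  have hi : Integrable fun t => f t * φ (t 0) :=
    h.integrable_mul (hφ.comp (measurable_pi_apply 0)) hD
  have e := (volume_preserving_piFinSuccAbove (fun _ : Fin (N + 2) => ℝ) (Fin.last (N + 1))).symm
  have h1 : ∫ t, f t * φ (t 0) = ∫ p : ℝ × (Fin (N + 1) → ℝ), f (ins p.1 p.2) * φ (p.2 0) := by
    rw [← e.integral_comp' (fun t => f t * φ (t 0))]
    refine integral_congr_ae (Filter.Eventually.of_forall fun p => ?_)
    show f (ins p.1 p.2) * φ (ins p.1 p.2 0) = _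
    have : ins p.1 p.2 (0 : Fin (N + 2)) = p.2 0 := ins_castSucc p.1 p.2 0
    rw [this]
  have hi2 : Integrable (fun p : ℝ × (Fin (N + 1) → ℝ) => f (ins p.1 p.2) * φ (p.2 0))
      (volume.prod volume) := by
    have h3 := (e.integrable_comp_emb (MeasurableEquiv.measurableEmbedding _)).mpr hi
    refine h3.congr (Filter.Eventually.of_forall fun p => ?_)
    show f (ins p.1 p.2) * φ (ins p.1 p.2 0) = _
    have : ins p.1 p.2 (0 : Fin (N + 2)) = p.2 0 := ins_castSucc p.1 p.2 0
    rw [this]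
  rw [h1]
  have h4 := integral_prod_symm _ hi2
  rw [← Measure.volume_eq_prod] at h4
  rw [h4]
  refine integral_congr_ae (Filter.Eventually.of_forall fun y => ?_)
  show ∫ x : ℝ, f (ins x y) * φ (y 0) = _
  rw [integral_mul_const]
  rfl

end MP_a3e05c_co.BL
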