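import Mathlib

/-!
# EULER, block BL: the Prekopa-Leindler inequality on the line (for convex level sets)
-/

open MeasureTheory Set Pointwise

namespace MP_a3e05c_co.BL

/-- one-dimensional Brunn-Minkowski inequality for convex sets -/
theorem vol_combo {F G H : Set ℝ} (hFc : Convex ℝ F) (hGc : Convex ℝ G) (hFn : F.Nonempty)
    (hGn : G.Nonempty) (hFb : Bornology.IsBounded F) (hGb : Bornology.IsBounded G) {s : ℝ}
    (hs0 : 0 < s) (hs1 : s < 1) (h : ∀ x ∈ F, ∀ y ∈ G, (1 - s) * x + s * y ∈ H) :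
    ENNReal.ofReal (1 - s) * volume F + ENNReal.ofReal s * volume G ≤ volume H := by
  have hFa : BddBelow F := hFb.bddBelow
  have hFA : BddAbove F := hFb.bddAbove
  have hGa : BddBelow G := hGb.bddBelow
  have hGA : BddAbove G := hGb.bddAbove
  have hF : volume F ≤ ENNReal.ofReal (sSup F - sInf F) := by
    rw [← Real.volume_Icc]
    exact measure_mono fun x hx => ⟨csInf_le hFa hx, le_csSup hFA hx⟩
  have hG : volume G ≤ ENNReal.ofReal (sSup G - sInf G) := by
    rw [← Real.volume_Icc]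
    exact measure_mono fun x hx => ⟨csInf_le hGa hx, le_csSup hGA hx⟩
  have hFd : 0 ≤ sSup F - sInf F := by
    obtain ⟨x, hx⟩ := hFn
    linarith [csInf_le hFa hx, le_csSup hFA hx]
  have hGd : 0 ≤ sSup G - sInf G := by
    obtain ⟨x, hx⟩ := hGn
    linarith [csInf_le hGa hx, le_csSup hGA hx]
  set T : ℝ := (1 - s) * (sSup F - sInf F) + s * (sSup G - sInf G) with hT
  have hT0 : 0 ≤ T := by
    have : 0 ≤ 1 - s := by linarith
    positivity
  have h1 : ENNReal.ofReal (1 - s) * volume F + ENNReal.ofReal s * volume G ≤ ENNReal.ofReal T := by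
    rw [hT, ENNReal.ofReal_add (by apply mul_nonneg <;> linarith) (by positivity),
      ENNReal.ofReal_mul (by linarith), ENNReal.ofReal_mul hs0.le]
    gcongr
  refine h1.trans ?_
  refine ENNReal.le_of_forall_pos_le_add fun ε hε _ => ?_
  have hε' : (0 : ℝ) < ε := hε
  have hq : (0 : ℝ) < (ε : ℝ) / 2 := by linarith
  obtain ⟨x0, hx0, hx0'⟩ := exists_lt_of_csInf_lt hFn (lt_add_of_pos_right (sInf F) hq)
  obtain ⟨x1, hx1, hx1'⟩ := exists_lt_of_lt_csSup hFn (sub_lt_self (sSup F) hq)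
  obtain ⟨y0, hy0, hy0'⟩ := exists_lt_of_csInf_lt hGn (lt_add_of_pos_right (sInf G) hq)
  obtain ⟨y1, hy1, hy1'⟩ := exists_lt_of_lt_csSup hGn (sub_lt_self (sSup G) hq)
  have hKc : Convex ℝ ((1 - s) • F + s • G) := (hFc.smul _).add (hGc.smul _)
  have hKH : (1 - s) • F + s • G ⊆ H := by
    rintro z ⟨_, ⟨x, hx, rfl⟩, _, ⟨y, hy, rfl⟩, rfl⟩
    exact h x hx y hy
  have hp : (1 - s) * x0 + s * y0 ∈ (1 - s) • F + s • G :=
    ⟨(1 - s) * x0, ⟨x0, hx0, rfl⟩, s * y0, ⟨y0, hy0, rfl⟩, rfl⟩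
  have hq' : (1 - s) * x1 + s * y1 ∈ (1 - s) • F + s • G :=
    ⟨(1 - s) * x1, ⟨x1, hx1, rfl⟩, s * y1, ⟨y1, hy1, rfl⟩, rfl⟩
  have hsub : Icc ((1 - s) * x0 + s * y0) ((1 - s) * x1 + s * y1) ⊆ H :=
    (hKc.ordConnected.out hp hq').trans hKH
  have h2 : ENNReal.ofReal ((1 - s) * x1 + s * y1 - ((1 - s) * x0 + s * y0)) ≤ volume H := by
    rw [← Real.volume_Icc]
    exact measure_mono hsub
  have h3 : T ≤ ((1 - s) * x1 + s * y1 - ((1 - s) * x0 + s * y0)) + ε := by
    have e1 : (1 - s) * (sSup F - sInf F) ≤ (1 - s) * (x1 - x0 + ε) :=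
      mul_le_mul_of_nonneg_left (by linarith) (by linarith)
    have e2 : s * (sSup G - sInf G) ≤ s * (y1 - y0 + ε) :=
      mul_le_mul_of_nonneg_left (by linarith) hs0.le
    rw [hT]
    nlinarith
  calc ENNReal.ofReal T
      ≤ ENNReal.ofReal (((1 - s) * x1 + s * y1 - ((1 - s) * x0 + s * y0)) + ε) :=
        ENNReal.ofReal_le_ofReal h3
    _ ≤ ENNReal.ofReal ((1 - s) * x1 + s * y1 - ((1 - s) * x0 + s * y0)) + ENNReal.ofReal ε :=
        ENNReal.ofReal_add_le
    _ ≤ volume H + ε := by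
        rw [ENNReal.ofReal_coe_nnreal]
        gcongr

/-- normalised form -/
theorem prek_norm {f g h : ℝ → ℝ} (hf0 : ∀ x, 0 ≤ f x) (hg0 : ∀ x, 0 ≤ g x) (hh0 : ∀ x, 0 ≤ h x)
    (hf1 : ∀ x, f x ≤ 1) (hg1 : ∀ x, g x ≤ 1)
    (hfs : ∀ t < 1, ∃ x, t < f x) (hgs : ∀ t < 1, ∃ x, t < g x)
    (hfi : Integrable f) (hgi : Integrable g) (hhi : Integrable h)
    (hfc : ∀ t, 0 < t → Convex ℝ {x | t < f x}) (hgc : ∀ t, 0 < t → Convex ℝ {x | t < g x})
    (hfb : Bornology.IsBounded {x | 0 < f x}) (hgb : Bornology.IsBounded {x | 0 < g x})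
    {s : ℝ} (hs0 : 0 < s) (hs1 : s < 1)
    (H : ∀ x y, f x ^ (1 - s) * g y ^ s ≤ h ((1 - s) * x + s * y)) :
    (1 - s) * (∫ x, f x) + s * (∫ x, g x) ≤ ∫ x, h x := by
  have hs1' : 0 < 1 - s := by linarith
  have ef := lintegral_eq_lintegral_meas_lt volume (Filter.Eventually.of_forall hf0)
    hfi.aemeasurable
  have eg := lintegral_eq_lintegral_meas_lt volume (Filter.Eventually.of_forall hg0)
    hgi.aemeasurable
  have eh := lintegral_eq_lintegral_meas_lt volume (Filter.Eventually.of_forall hh0)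
    hhi.aemeasurable
  have hlev : ∀ t ∈ Ioi (0 : ℝ), ENNReal.ofReal (1 - s) * volume {x | t < f x} +
      ENNReal.ofReal s * volume {x | t < g x} ≤ volume {x | t < h x} := by
    intro t ht
    have ht0 : 0 < t := ht
    by_cases h1 : t < 1
    · refine vol_combo (hfc t ht0) (hgc t ht0) (hfs t h1) (hgs t h1) ?_ ?_ hs0 hs1 ?_
      · exact hfb.subset fun x hx => lt_trans ht0 hx
      · exact hgb.subset fun x hx => lt_trans ht0 hx
      · intro x hx y hy
        have hx' : t < f x := hx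
        have hy' : t < g y := hy
        have h2 : t ^ (1 - s) * t ^ s = t := by
          rw [← Real.rpow_add ht0]
          simp
        have h3 : t ^ (1 - s) < f x ^ (1 - s) := Real.rpow_lt_rpow ht0.le hx' hs1'
        have h4 : t ^ s < g y ^ s := Real.rpow_lt_rpow ht0.le hy' hs0
        have h5 : t ^ (1 - s) * t ^ s < f x ^ (1 - s) * g y ^ s :=
          mul_lt_mul'' h3 h4 (Real.rpow_nonneg ht0.le _) (Real.rpow_nonneg ht0.le _)
        rw [h2] at h5
        exact lt_of_lt_of_le h5 (H x y)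
    · have e1 : {x | t < f x} = ∅ := by
        ext x
        simp only [mem_ofPred_eq, mem_empty_iff_false, iff_false, not_lt]
        exact (hf1 x).trans (not_lt.mp h1)
      have e2 : {x | t < g x} = ∅ := by
        ext x
        simp only [mem_ofPred_eq, mem_empty_iff_false, iff_false, not_lt]
        exact (hg1 x).trans (not_lt.mp h1)
      rw [e1, e2]
      simp
  have hm : ∀ k : ℝ → ℝ, Measurable fun t => volume {x | t < k x} := fun k =>
    Antitone.measurable (fun _ _ hst => measure_mono (fun _ h => lt_of_le_of_lt hst h))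
  have hkey : ENNReal.ofReal (1 - s) * (∫⁻ x, ENNReal.ofReal (f x)) +
      ENNReal.ofReal s * (∫⁻ x, ENNReal.ofReal (g x)) ≤ ∫⁻ x, ENNReal.ofReal (h x) := by
    rw [ef, eg, eh, ← lintegral_const_mul _ (hm f), ← lintegral_const_mul _ (hm g),
      ← lintegral_add_left ((hm f).const_mul _)]
    exact setLIntegral_mono (hm h) hlev
  rw [← ofReal_integral_eq_lintegral_ofReal hfi (Filter.Eventually.of_forall hf0),
    ← ofReal_integral_eq_lintegral_ofReal hgi (Filter.Eventually.of_forall hg0),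
    ← ofReal_integral_eq_lintegral_ofReal hhi (Filter.Eventually.of_forall hh0),
    ← ENNReal.ofReal_mul hs1'.le, ← ENNReal.ofReal_mul hs0.le,
    ← ENNReal.ofReal_add (mul_nonneg hs1'.le (integral_nonneg hf0))
      (mul_nonneg hs0.le (integral_nonneg hg0)),
    ENNReal.ofReal_le_ofReal_iff (integral_nonneg hh0)] at hkey
  exact hkey

/-- Prekopa-Leindler on the line -/
theorem prek {f g h : ℝ → ℝ} (hf0 : ∀ x, 0 ≤ f x) (hg0 : ∀ x, 0 ≤ g x) (hh0 : ∀ x, 0 ≤ h x)
    (hfB : BddAbove (range f)) (hgB : BddAbove (range g))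
    (hfi : Integrable f) (hgi : Integrable g) (hhi : Integrable h)
    (hfc : ∀ t, 0 < t → Convex ℝ {x | t < f x}) (hgc : ∀ t, 0 < t → Convex ℝ {x | t < g x})
    (hfb : Bornology.IsBounded {x | 0 < f x}) (hgb : Bornology.IsBounded {x | 0 < g x})
    {s : ℝ} (hs0 : 0 < s) (hs1 : s < 1)
    (H : ∀ x y, f x ^ (1 - s) * g y ^ s ≤ h ((1 - s) * x + s * y)) :
    (∫ x, f x) ^ (1 - s) * (∫ x, g x) ^ s ≤ ∫ x, h x := by
  have hs1' : 0 < 1 - s := by linarith
  have hh : 0 ≤ ∫ x, h x := integral_nonneg hh0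
  by_cases hA : ∃ x, 0 < f x
  swap
  · push Not at hA
    have : f = fun _ => 0 := funext fun x => le_antisymm (hA x) (hf0 x)
    rw [this]
    simp only [integral_zero]
    rw [Real.zero_rpow hs1'.ne', zero_mul]
    exact hh
  by_cases hB : ∃ x, 0 < g x
  swap
  · push Not at hB
    have : g = fun _ => 0 := funext fun x => le_antisymm (hB x) (hg0 x)
    rw [this]
    simp only [integral_zero]
    rw [Real.zero_rpow hs0.ne', mul_zero]
    exact hh
  set A := sSup (range f) with hAdef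
  set B := sSup (range g) with hBdef
  have hA0 : 0 < A := by
    obtain ⟨x, hx⟩ := hA
    exact lt_of_lt_of_le hx (le_csSup hfB ⟨x, rfl⟩)
  have hB0 : 0 < B := by
    obtain ⟨x, hx⟩ := hB
    exact lt_of_lt_of_le hx (le_csSup hgB ⟨x, rfl⟩)
  have hCpos : 0 < A ^ (1 - s) * B ^ s := mul_pos (Real.rpow_pos_of_pos hA0 _) (Real.rpow_pos_of_pos hB0 _)
  have hnorm := prek_norm (f := fun x => f x / A) (g := fun x => g x / B)
    (h := fun x => h x / (A ^ (1 - s) * B ^ s))
    (fun x => div_nonneg (hf0 x) hA0.le) (fun x => div_nonneg (hg0 x) hB0.le)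
    (fun x => div_nonneg (hh0 x) hCpos.le)
    (fun x => (div_le_one hA0).mpr (le_csSup hfB ⟨x, rfl⟩))
    (fun x => (div_le_one hB0).mpr (le_csSup hgB ⟨x, rfl⟩))
    (fun t ht => by
      have h1 : t * A < A := by nlinarith
      obtain ⟨_, ⟨x, rfl⟩, hx⟩ := exists_lt_of_lt_csSup (range_nonempty f) h1
      exact ⟨x, (lt_div_iff₀ hA0).mpr hx⟩)
    (fun t ht => by
      have h1 : t * B < B := by nlinarith
      obtain ⟨_, ⟨x, rfl⟩, hx⟩ := exists_lt_of_lt_csSup (range_nonempty g) h1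
      exact ⟨x, (lt_div_iff₀ hB0).mpr hx⟩)
    (hfi.div_const _) (hgi.div_const _) (hhi.div_const _)
    (fun t ht => by
      have h1 : {x | t < f x / A} = {x | t * A < f x} := by
        ext x
        exact lt_div_iff₀ hA0
      rw [h1]
      exact hfc _ (mul_pos ht hA0))
    (fun t ht => by
      have h1 : {x | t < g x / B} = {x | t * B < g x} := by
        ext x
        exact lt_div_iff₀ hB0
      rw [h1]
      exact hgc _ (mul_pos ht hB0))
    (by
      have h1 : {x | 0 < f x / A} = {x | 0 < f x} := by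
        ext x
        exact div_pos_iff_of_pos_right hA0
      rw [h1]; exact hfb)
    (by
      have h1 : {x | 0 < g x / B} = {x | 0 < g x} := by
        ext x
        exact div_pos_iff_of_pos_right hB0
      rw [h1]; exact hgb)
    hs0 hs1
    (fun x y => by
      show (f x / A) ^ (1 - s) * (g y / B) ^ s ≤ h ((1 - s) * x + s * y) / (A ^ (1 - s) * B ^ s)
      rw [Real.div_rpow (hf0 x) hA0.le, Real.div_rpow (hg0 y) hB0.le, div_mul_div_comm]
      exact div_le_div_of_nonneg_right (H x y) hCpos.le)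
  simp only [integral_div] at hnorm
  have hF0 : 0 ≤ ∫ x, f x := integral_nonneg hf0
  have hG0 : 0 ≤ ∫ x, g x := integral_nonneg hg0
  have hamgm := Real.geom_mean_le_arith_mean2_weighted hs1'.le hs0.le
    (div_nonneg hF0 hA0.le) (div_nonneg hG0 hB0.le) (by ring)
  have h1 := hamgm.trans hnorm
  rw [Real.div_rpow hF0 hA0.le, Real.div_rpow hG0 hB0.le, div_mul_div_comm,
    div_le_div_iff_of_pos_right hCpos] at h1
  exact h1

end MP_a3e05c_co.BL
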